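import Mathlib

/-!
# Triangular derivations of `ℂ[a,b][x,y,z]` with `D x`, `D y` generating `ℂ[a,b]`: generalities

`RR = ℂ[a,b]`, `SS = RR[x,y]`, `BB = RR[x,y,z]`.
-/

set_option autoImplicit false

open MvPolynomial

namespace Pool.Agent.H41.TS

/-- `ℂ[a,b]` -/
abbrev RR : Type := MvPolynomial (Fin 2) ℂ

/-- `ℂ[a,b][x,y]` -/
abbrev SS : Type := MvPolynomial (Fin 2) RR

/-- `ℂ[a,b][x,y,z]` -/
abbrev BB : Type := MvPolynomial (Fin 3) RR

/-- inclusion of `R[x,y]` in `R[x,y,z]` -/
noncomputable def inc : SS →ₐ[RR] BB := aeval ![X 0, X 1]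

theorem inc_X0 : inc (X 0) = X 0 := by simp [inc]

theorem inc_X1 : inc (X 1) = X 1 := by simp [inc]

theorem inc_C (r : RR) : inc (C r) = C r := by
  rw [← algebraMap_eq, ← algebraMap_eq, AlgHom.commutes]

/-- The derivation of `R[x,y]` with `x ↦ p`, `y ↦ q`. -/
noncomputable def D0 (p q : RR) : Derivation RR SS SS := mkDerivation RR ![C p, C q]

theorem D0_X0 (p q : RR) : D0 p q (X 0) = C p := by simp [D0]

theorem D0_X1 (p q : RR) : D0 p q (X 1) = C q := by simp [D0]

theorem comm_of_gens {ι k A : Type*} [CommRing k] [CommRing A] [Algebra k A]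
    (φ : MvPolynomial ι RR →+* A) (δ : Derivation k A A)
    (D : Derivation RR (MvPolynomial ι RR) (MvPolynomial ι RR))
    (h0 : ∀ r : RR, δ (φ (C r)) = 0) (hX : ∀ i, φ (D (X i)) = δ (φ (X i)))
    (f : MvPolynomial ι RR) : φ (D f) = δ (φ f) := by
  induction f using MvPolynomial.induction_on with
  | C r =>
    rw [h0]
    have : D (C r) = 0 := D.map_algebraMap r
    rw [this, map_zero]
  | add f g hf hg => rw [map_add, map_add, map_add, map_add, hf, hg]
  | mul_X f i hf =>
    rw [Derivation.leibniz, map_mul, Derivation.leibniz, map_add, smul_eq_mul, smul_eq_mul,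
      map_mul, map_mul, hf, hX, smul_eq_mul, smul_eq_mul]

/-- version with target derivation having arbitrary values, over a ring map `φ : S → B`. -/
theorem inc_D0 {p q : RR} {D : Derivation RR BB BB} (hx : D (X 0) = C p) (hy : D (X 1) = C q)
    (f : SS) : inc (D0 p q f) = D (inc f) := by
  refine comm_of_gens (inc : SS →ₐ[RR] BB).toRingHom D (D0 p q) ?_ ?_ f
  · intro r
    have : (inc : SS →ₐ[RR] BB).toRingHom (C r) = C r := inc_C r
    rw [this]
    exact D.map_algebraMap r
  · intro i
    have h : ∀ g, (inc : SS →ₐ[RR] BB).toRingHom g = inc g := fun g => rfl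
    fin_cases i
    · simp only [h]
      rw [Fin.zero_eta, D0_X0, inc_C, inc_X0, hx]
    · simp only [h]
      rw [Fin.mk_one, D0_X1, inc_C, inc_X1, hy]

/-- surjective endomorphisms of Noetherian rings are injective -/
theorem inj_of_surj {A : Type*} [CommRing A] [IsNoetherianRing A] (f : A →+* A)
    (hf : Function.Surjective f) : Function.Injective f := by
  let K : ℕ → Ideal A := fun n =>
    { carrier := {x | f^[n] x = 0}
      add_mem' := by
        intro x y hx hy
        simp only [Set.mem_ofPred_eq] at hx hy ⊢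
        rw [iterate_map_add, hx, hy, add_zero]
      zero_mem' := by
        simp only [Set.mem_ofPred_eq]
        rw [iterate_map_zero]
      smul_mem' := by
        intro c x hx
        simp only [Set.mem_ofPred_eq] at hx ⊢
        rw [smul_eq_mul, iterate_map_mul, hx, mul_zero] }
  have hK : ∀ n x, x ∈ K n ↔ f^[n] x = 0 := fun n x => Iff.rfl
  have hmono : Monotone K := by
    refine monotone_nat_of_le_succ fun n x hx => ?_
    rw [hK] at hx ⊢
    rw [Function.iterate_succ_apply', hx, map_zero]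
  obtain ⟨n, hn⟩ := monotone_stabilizes_iff_noetherian.2 (inferInstance : IsNoetherian A A)
    ⟨K, hmono⟩
  rw [injective_iff_map_eq_zero]
  intro x hx
  obtain ⟨y, rfl⟩ := hf.iterate n x
  have h1 : y ∈ K (n + 1) := by
    rw [hK, Function.iterate_succ_apply']
    exact hx
  have h2 : K n = K (n + 1) := hn (n + 1) (Nat.le_succ n)
  rw [← h2, hK] at h1
  exact h1

/-- values of `p`, `q` can be prescribed -/
theorem exists_hom {p q : RR} (hpq : Algebra.adjoin ℂ {p, q} = ⊤) {A : Type*} [CommRing A]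
    [Algebra ℂ A] (u v : A) : ∃ φ : RR →ₐ[ℂ] A, φ p = u ∧ φ q = v := by
  let θ : RR →ₐ[ℂ] RR := aeval ![p, q]
  have hsurj : Function.Surjective θ := by
    rw [← AlgHom.range_eq_top, ← hpq]
    have h1 : θ.range = Algebra.adjoin ℂ (Set.range ![p, q]) := by
      rw [Algebra.adjoin_range_eq_range_aeval]
    rw [h1]
    congr 1
    ext f
    simp [Matrix.range_cons, Set.mem_insert_iff, or_comm]
  have hinj : Function.Injective θ :=
    inj_of_surj θ.toRingHom hsurj
  let e : RR ≃ₐ[ℂ] RR := AlgEquiv.ofBijective θ ⟨hinj, hsurj⟩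
  have hp : e (X 0) = p := by simp [e, θ]
  have hq : e (X 1) = q := by simp [e, θ]
  refine ⟨(aeval ![u, v]).comp e.symm.toAlgHom, ?_, ?_⟩
  · have : e.symm p = X 0 := by rw [← hp, AlgEquiv.symm_apply_apply]
    simp [this]
  · have : e.symm q = X 1 := by rw [← hq, AlgEquiv.symm_apply_apply]
    simp [this]

theorem mem_of_pq {p q : RR} (hpq : Algebra.adjoin ℂ {p, q} = ⊤) {A : Type*} [CommRing A]
    [Algebra ℂ A] (φ : RR →ₐ[ℂ] A) (U : Subalgebra ℂ A) (hp : φ p ∈ U) (hq : φ q ∈ U) (r : RR) :
    φ r ∈ U := by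
  have h1 : Algebra.adjoin ℂ {p, q} ≤ U.comap φ := by
    rw [Algebra.adjoin_le_iff]
    intro f hf
    rcases hf with rfl | hf
    · exact hp
    · rw [Set.mem_singleton_iff] at hf
      rw [hf]
      exact hq
  have h2 : r ∈ Algebra.adjoin ℂ {p, q} := by rw [hpq]; trivial
  exact h1 h2

theorem mem_of_gens {ι A : Type*} [CommRing A] [Algebra ℂ A]
    (φ : MvPolynomial ι RR →+* A) (U : Subalgebra ℂ A)
    (h0 : ∀ r : RR, φ (C r) ∈ U) (hX : ∀ i, φ (X i) ∈ U) (f : MvPolynomial ι RR) : φ f ∈ U := by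
  induction f using MvPolynomial.induction_on with
  | C r => exact h0 r
  | add f g hf hg =>
    rw [map_add]
    exact add_mem hf hg
  | mul_X f i hf =>
    rw [map_mul]
    exact mul_mem hf (hX i)

end Pool.Agent.H41.TS
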