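import Mathlib
import Pool.Agent.H41.TS.Gen

/-!
# Normal form: `R[x,y] = ℂ[L,x,y] + D(R[x,y])` with `L = q x - p y`
-/

set_option autoImplicit false

open MvPolynomial

namespace Pool.Agent.H41.TS

/-- `L = q x - p y` -/
noncomputable def Lel (p q : RR) : SS := C q * X 0 - C p * X 1

/-- `ρ(L, x, y)` -/
noncomputable def nf (p q : RR) : MvPolynomial (Fin 3) ℂ →ₐ[ℂ] SS := aeval ![Lel p q, X 0, X 1]

theorem nf_X0 (p q : RR) : nf p q (X 0) = Lel p q := by simp [nf]

theorem nf_X1 (p q : RR) : nf p q (X 1) = X 0 := by simp [nf]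

theorem nf_X2 (p q : RR) : nf p q (X 2) = X 1 := by simp [nf]

theorem D0_C (p q r : RR) : D0 p q (C r) = 0 := (D0 p q).map_algebraMap r

theorem D0_Lel (p q : RR) : D0 p q (Lel p q) = 0 := by
  rw [Lel, map_sub, Derivation.leibniz, Derivation.leibniz, D0_C, D0_C, D0_X0, D0_X1, smul_zero,
    smul_zero, add_zero, add_zero, smul_eq_mul, smul_eq_mul]
  ring

theorem D0_mul (p q : RR) (f g : SS) : D0 p q (f * g) = f * D0 p q g + g * D0 p q f := by
  rw [Derivation.leibniz, smul_eq_mul, smul_eq_mul]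

theorem D0_pow (p q : RR) (f : SS) (n : ℕ) :
    D0 p q (f ^ n) = (n : SS) * f ^ (n - 1) * D0 p q f := by
  rw [Derivation.leibniz_pow, nsmul_eq_mul, smul_eq_mul]
  ring

/-- the space of all `ρ(L,x,y) + D w` -/
noncomputable def VV (p q : RR) : Submodule ℂ SS :=
  LinearMap.range (nf p q).toLinearMap ⊔ LinearMap.range ((D0 p q : SS →ₗ[RR] SS).restrictScalars ℂ)

theorem nf_mem (p q : RR) (ρ : MvPolynomial (Fin 3) ℂ) : nf p q ρ ∈ VV p q :=
  Submodule.mem_sup_left ⟨ρ, rfl⟩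

theorem D0_mem (p q : RR) (w : SS) : D0 p q w ∈ VV p q :=
  Submodule.mem_sup_right ⟨w, rfl⟩

theorem mem_VV (p q : RR) (r : SS) (hr : r ∈ VV p q) :
    ∃ (ρ : MvPolynomial (Fin 3) ℂ) (w : SS), r = nf p q ρ + D0 p q w := by
  obtain ⟨a, ⟨ρ, rfl⟩, b, ⟨w, rfl⟩, h⟩ := Submodule.mem_sup.1 hr
  exact ⟨ρ, w, h.symm⟩

theorem key_p (p q : RR) (v i j : ℕ) :
    (((i + j + 1 : ℕ) : ℂ)) • (C p * (Lel p q ^ v * X 0 ^ i * X 1 ^ j)) =
      D0 p q (Lel p q ^ v * (X 0 ^ (i + 1) * X 1 ^ j)) -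
        (j : ℂ) • (Lel p q ^ (v + 1) * X 0 ^ i * X 1 ^ (j - 1)) := by
  rw [D0_mul, D0_pow p q (Lel p q), D0_Lel, mul_zero, mul_zero, add_zero, D0_mul, D0_pow, D0_pow,
    D0_X0, D0_X1, Nat.add_sub_cancel]
  have hL : Lel p q = C q * X 0 - C p * X 1 := rfl
  rw [Algebra.smul_def, Algebra.smul_def, map_natCast, map_natCast]
  rcases j with _ | j
  · push_cast
    ring
  · rw [Nat.add_sub_cancel, pow_succ (Lel p q) v]
    nth_rewrite 4 [hL]
    push_cast
    ring

theorem key_q (p q : RR) (v i j : ℕ) :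
    (((i + j + 1 : ℕ) : ℂ)) • (C q * (Lel p q ^ v * X 0 ^ i * X 1 ^ j)) =
      D0 p q (Lel p q ^ v * (X 0 ^ i * X 1 ^ (j + 1))) +
        (i : ℂ) • (Lel p q ^ (v + 1) * X 0 ^ (i - 1) * X 1 ^ j) := by
  rw [D0_mul, D0_pow p q (Lel p q), D0_Lel, mul_zero, mul_zero, add_zero, D0_mul, D0_pow, D0_pow,
    D0_X0, D0_X1, Nat.add_sub_cancel]
  have hL : Lel p q = C q * X 0 - C p * X 1 := rfl
  rw [Algebra.smul_def, Algebra.smul_def, map_natCast, map_natCast]
  rcases i with _ | i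
  · push_cast
    ring
  · rw [Nat.add_sub_cancel, pow_succ (Lel p q) v]
    nth_rewrite 4 [hL]
    push_cast
    ring

theorem nf_monomial (p q : RR) (d : Fin 3 →₀ ℕ) (c : ℂ) :
    nf p q (monomial d c) = c • (Lel p q ^ d 0 * X 0 ^ d 1 * X 1 ^ d 2) := by
  rw [nf, aeval_monomial, Finsupp.prod_fintype _ _ (fun i => pow_zero _), Fin.prod_univ_three,
    Algebra.smul_def]
  simp

theorem nf_mono (p q : RR) (v i j : ℕ) :
    Lel p q ^ v * X 0 ^ i * X 1 ^ j ∈ VV p q := by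
  have h : nf p q (X 0 ^ v * X 1 ^ i * X 2 ^ j) = Lel p q ^ v * X 0 ^ i * X 1 ^ j := by
    rw [map_mul, map_mul, map_pow, map_pow, map_pow, nf_X0, nf_X1, nf_X2]
  rw [← h]
  exact nf_mem p q _

theorem smul_mem_iff' {p q : RR} {c : ℂ} (hc : c ≠ 0) {f : SS} (h : c • f ∈ VV p q) :
    f ∈ VV p q := by
  have := (VV p q).smul_mem c⁻¹ h
  rwa [smul_smul, inv_mul_cancel₀ hc, one_smul] at this

theorem mul_p_nf (p q : RR) (ρ : MvPolynomial (Fin 3) ℂ) : C p * nf p q ρ ∈ VV p q := by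
  induction ρ using MvPolynomial.induction_on' with
  | monomial d c =>
    rw [nf_monomial, mul_smul_comm]
    refine Submodule.smul_mem _ _ (smul_mem_iff' (c := ((d 1 + d 2 + 1 : ℕ) : ℂ))
      (Nat.cast_ne_zero.2 (by omega)) ?_)
    rw [key_p]
    exact sub_mem (D0_mem p q _) (Submodule.smul_mem _ _ (nf_mono p q _ _ _))
  | add f g hf hg =>
    rw [map_add, mul_add]
    exact add_mem hf hg

theorem mul_p_mem (p q : RR) (r : SS) (hr : r ∈ VV p q) : C p * r ∈ VV p q := by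
  obtain ⟨ρ, w, rfl⟩ := mem_VV p q r hr
  rw [mul_add]
  refine add_mem (mul_p_nf p q ρ) ?_
  · have : C p * D0 p q w = D0 p q (C p * w) := by
      rw [D0_mul, D0_C, mul_zero, add_zero]
    rw [this]
    exact D0_mem p q _

theorem mul_q_nf (p q : RR) (ρ : MvPolynomial (Fin 3) ℂ) : C q * nf p q ρ ∈ VV p q := by
  induction ρ using MvPolynomial.induction_on' with
  | monomial d c =>
    rw [nf_monomial, mul_smul_comm]
    refine Submodule.smul_mem _ _ (smul_mem_iff' (c := ((d 1 + d 2 + 1 : ℕ) : ℂ))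
      (Nat.cast_ne_zero.2 (by omega)) ?_)
    rw [key_q]
    exact add_mem (D0_mem p q _) (Submodule.smul_mem _ _ (nf_mono p q _ _ _))
  | add f g hf hg =>
    rw [map_add, mul_add]
    exact add_mem hf hg

theorem mul_q_mem (p q : RR) (r : SS) (hr : r ∈ VV p q) : C q * r ∈ VV p q := by
  obtain ⟨ρ, w, rfl⟩ := mem_VV p q r hr
  rw [mul_add]
  refine add_mem (mul_q_nf p q ρ) ?_
  · have : C q * D0 p q w = D0 p q (C q * w) := by
      rw [D0_mul, D0_C, mul_zero, add_zero]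
    rw [this]
    exact D0_mem p q _

theorem mul_C_mem {p q : RR} (hpq : Algebra.adjoin ℂ {p, q} = ⊤) (a : RR) :
    ∀ r ∈ VV p q, C a * r ∈ VV p q := by
  have h2 : a ∈ Algebra.adjoin ℂ {p, q} := by rw [hpq]; trivial
  induction h2 using Algebra.adjoin_induction with
  | mem x hx =>
    intro r hr
    rcases hx with rfl | hx
    · exact mul_p_mem _ q r hr
    · rw [Set.mem_singleton_iff] at hx
      rw [hx]
      exact mul_q_mem p q r hr
  | algebraMap c =>
    intro r hr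
    have : C (algebraMap ℂ RR c) * r = c • r := by
      rw [Algebra.smul_def]
      rfl
    rw [this]
    exact Submodule.smul_mem _ _ hr
  | add x y _ _ h1 h2 =>
    intro r hr
    rw [map_add, add_mul]
    exact add_mem (h1 r hr) (h2 r hr)
  | mul x y _ _ h1 h2 =>
    intro r hr
    rw [map_mul, mul_assoc]
    exact h1 _ (h2 r hr)

/-- **normal form** -/
theorem normal_form {p q : RR} (hpq : Algebra.adjoin ℂ {p, q} = ⊤) (r : SS) :
    ∃ (ρ : MvPolynomial (Fin 3) ℂ) (w : SS), r = nf p q ρ + D0 p q w := by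
  apply mem_VV
  induction r using MvPolynomial.induction_on' with
  | monomial d c =>
    have h : monomial d c = C c * (Lel p q ^ 0 * X 0 ^ d 0 * X 1 ^ d 1) := by
      rw [pow_zero, one_mul, monomial_eq, Finsupp.prod_fintype _ _ (fun i => pow_zero _),
        Fin.prod_univ_two]
    rw [h]
    exact mul_C_mem hpq c _ (nf_mono p q _ _ _)
  | add f g hf hg => exact add_mem hf hg

end Pool.Agent.H41.TS
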