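import Mathlib
import Pool.Agent.H41.TS.Norm

/-!
# Flowing along an orbit

`A` a `ℂ`-algebra with elements `κ, κi, β, h`, `κ κi = 1`. We follow the orbit of
`(p, q, x, y) = (κ, μ κ + β, 0, - β h κi)` until the time `κi h`, when it is at
`(κ, μ κ + β, h, μ h)`.
-/

set_option autoImplicit false
set_option linter.unusedSectionVars false

open MvPolynomial

namespace Pool.Agent.H41.TS

variable {A : Type} [CommRing A] [Algebra ℂ A]

theorem natCast_isUnit (n : ℕ) (hn : n ≠ 0) : IsUnit (n : A) := by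
  have h : IsUnit (n : ℂ) := (Nat.cast_ne_zero.2 hn).isUnit
  have := h.map (algebraMap ℂ A)
  rwa [map_natCast] at this

theorem eval_of_deriv_one (f : Polynomial A) (hf : Polynomial.derivative f = 1) (t : A) :
    f.eval t = f.eval 0 + t := by
  have h : f = Polynomial.C (f.coeff 0) + Polynomial.X := by
    ext n
    rcases n with _ | _ | n
    · simp
    · have := congrArg (fun g => Polynomial.coeff g 0) hf
      simp only [Polynomial.coeff_derivative, Polynomial.coeff_one_zero] at this
      simp only [zero_add, Nat.cast_zero, mul_one] at this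
      simp [this]
    · have := congrArg (fun g => Polynomial.coeff g (n + 1)) hf
      simp only [Polynomial.coeff_derivative, Polynomial.coeff_one, Nat.add_eq_zero_iff,
        one_ne_zero, and_false, if_false] at this
      have hu := natCast_isUnit (A := A) (n + 1 + 1) (by omega)
      push_cast at this hu
      have h0 := (hu.mul_left_eq_zero).1 this
      rw [Polynomial.coeff_add, Polynomial.coeff_C, Polynomial.coeff_X, h0]
      simp
  rw [h]
  simp

/-- `x(t) = κ t` -/
noncomputable def xt (κ : A) : Polynomial A := Polynomial.C κ * Polynomial.X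

/-- `y'(t) = β t - β h κi` -/
noncomputable def yt (κi β h : A) : Polynomial A :=
  Polynomial.C β * Polynomial.X - Polynomial.C (β * h * κi)

theorem d_xt (κ : A) : Polynomial.derivative (xt κ) = Polynomial.C κ := by
  rw [xt, Polynomial.derivative_mul, Polynomial.derivative_C, Polynomial.derivative_X, zero_mul,
    zero_add, mul_one]

theorem d_yt (κi β h : A) : Polynomial.derivative (yt κi β h) = Polynomial.C β := by
  rw [yt, Polynomial.derivative_sub, Polynomial.derivative_mul, Polynomial.derivative_C,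
    Polynomial.derivative_C, Polynomial.derivative_X, zero_mul, zero_add, mul_one, sub_zero]

theorem xt_zero (κ : A) : (xt κ).eval 0 = 0 := by simp [xt]

theorem yt_zero (κi β h : A) : (yt κi β h).eval 0 = - (β * h * κi) := by simp [yt]

theorem xt_T {κ κi : A} (hκ : κ * κi = 1) (h : A) : (xt κ).eval (κi * h) = h := by
  rw [xt, Polynomial.eval_mul, Polynomial.eval_C, Polynomial.eval_X, ← mul_assoc, hκ, one_mul]

theorem yt_T (κi β h : A) : (yt κi β h).eval (κi * h) = 0 := by
  rw [yt, Polynomial.eval_sub, Polynomial.eval_mul, Polynomial.eval_C, Polynomial.eval_X,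
    Polynomial.eval_C]
  ring

theorem cc (k : ℕ) : algebraMap ℂ A (1 / ((k : ℂ) + 1)) * ((k : A) + 1) = 1 := by
  have h : ((k : A) + 1) = algebraMap ℂ A ((k : ℂ) + 1) := by
    rw [map_add, map_natCast, map_one]
  rw [h, ← map_mul, one_div_mul_cancel, map_one]
  exact Nat.cast_add_one_ne_zero k

theorem wint0 {κ κi : A} (hκ : κ * κi = 1) (β h : A) (j : ℕ) : ∀ k : ℕ,
    ∃ (W : Polynomial A) (c : ℂ), Polynomial.derivative W = xt κ ^ k * yt κi β h ^ j ∧
      W.eval 0 = 0 ∧ W.eval (κi * h) = algebraMap ℂ A c * (β ^ j * h ^ (k + j + 1) * κi ^ (j + 1)) ∧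
      (j = 0 → c = 1 / ((k : ℂ) + 1)) := by
  have hC : (Polynomial.C κ * Polynomial.C κi : Polynomial A) = 1 := by
    rw [← Polynomial.C_mul, hκ, Polynomial.C_1]
  induction j with
  | zero =>
    intro k
    have hc : (Polynomial.C (algebraMap ℂ A (1 / ((k : ℂ) + 1))) * ((k : Polynomial A) + 1)) = 1 := by
      have := congrArg (Polynomial.C (R := A)) (cc (A := A) k)
      simpa using this
    refine ⟨Polynomial.C κi * Polynomial.C (algebraMap ℂ A (1 / ((k : ℂ) + 1))) * xt κ ^ (k + 1),
      1 / ((k : ℂ) + 1), ?_, ?_, ?_, fun _ => rfl⟩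
    · rw [Polynomial.derivative_mul, Polynomial.derivative_mul, Polynomial.derivative_C,
        Polynomial.derivative_C, Polynomial.derivative_pow, d_xt, Nat.add_sub_cancel]
      rw [map_natCast]
      push_cast
      linear_combination (xt κ ^ k) * (Polynomial.C (algebraMap ℂ A (1 / ((k : ℂ) + 1))) *
        ((k : Polynomial A) + 1)) * hC + (xt κ ^ k) * hc
    · rw [Polynomial.eval_mul, Polynomial.eval_pow, xt_zero, zero_pow (by omega), mul_zero]
    · rw [Polynomial.eval_mul, Polynomial.eval_mul, Polynomial.eval_pow, xt_T hκ,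
        Polynomial.eval_C, Polynomial.eval_C]
      ring
  | succ j ih =>
    intro k
    obtain ⟨W, c, hW, hW0, hWT, -⟩ := ih (k + 1)
    have hc : (Polynomial.C (algebraMap ℂ A (1 / ((k : ℂ) + 1))) * ((k : Polynomial A) + 1)) = 1 := by
      have := congrArg (Polynomial.C (R := A)) (cc (A := A) k)
      simpa using this
    refine ⟨Polynomial.C κi * Polynomial.C (algebraMap ℂ A (1 / ((k : ℂ) + 1))) *
      (xt κ ^ (k + 1) * yt κi β h ^ (j + 1) - ((j : Polynomial A) + 1) * Polynomial.C β * W),
      - (1 / ((k : ℂ) + 1)) * ((j : ℂ) + 1) * c, ?_, ?_, ?_, fun h => absurd h (by omega)⟩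
    · have hn : Polynomial.derivative ((j : Polynomial A) + 1) = 0 := by
        rw [Polynomial.derivative_add, Polynomial.derivative_natCast, Polynomial.derivative_one,
          add_zero]
      rw [Polynomial.derivative_mul, Polynomial.derivative_mul, Polynomial.derivative_C,
        Polynomial.derivative_C, Polynomial.derivative_sub, Polynomial.derivative_mul,
        Polynomial.derivative_pow, Polynomial.derivative_pow, d_xt, d_yt,
        Polynomial.derivative_mul, Polynomial.derivative_mul, hn, Polynomial.derivative_C, hW,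
        Nat.add_sub_cancel, Nat.add_sub_cancel, map_natCast, map_natCast]
      push_cast
      linear_combination (xt κ ^ k * yt κi β h ^ (j + 1)) *
        (Polynomial.C (algebraMap ℂ A (1 / ((k : ℂ) + 1))) *
        ((k : Polynomial A) + 1)) * hC + (xt κ ^ k * yt κi β h ^ (j + 1)) * hc
    · rw [Polynomial.eval_mul, Polynomial.eval_sub, Polynomial.eval_mul, Polynomial.eval_mul,
        Polynomial.eval_pow, xt_zero, zero_pow (by omega), zero_mul, Polynomial.eval_mul, hW0,
        mul_zero, sub_zero, mul_zero]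
    · rw [Polynomial.eval_mul, Polynomial.eval_sub, Polynomial.eval_mul, Polynomial.eval_mul,
        Polynomial.eval_pow, Polynomial.eval_pow, yt_T, zero_pow (by omega : j + 1 ≠ 0), mul_zero,
        Polynomial.eval_mul, hWT, Polynomial.eval_mul, Polynomial.eval_C, Polynomial.eval_C,
        Polynomial.eval_C, Polynomial.eval_add, Polynomial.eval_natCast, Polynomial.eval_one,
        map_mul, map_mul, map_neg, map_add, map_natCast, map_one]
      ring

theorem wint1 {κ κi : A} (hκ : κ * κi = 1) (β h : A) (μ : ℂ) (V : Subalgebra ℂ A) (hκi : κi ∈ V)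
    (hβ : β ∈ V) (hβh : β * h ∈ V) (l : ℕ) : ∀ k j : ℕ,
    ∃ (W : Polynomial A), ∃ v ∈ V,
      Polynomial.derivative W = xt κ ^ k *
        ((Polynomial.C (algebraMap ℂ A μ) * xt κ + yt κi β h) ^ l * yt κi β h ^ j) ∧
      W.eval 0 = 0 ∧ W.eval (κi * h) =
        algebraMap ℂ A (if j = 0 then μ ^ l / ((k : ℂ) + l + 1) else 0) * (h ^ (k + l + 1) * κi) +
          h ^ (k + l + j) * v := by
  induction l with
  | zero =>
    intro k j
    obtain ⟨W, c, hW, hW0, hWT, hc⟩ := wint0 hκ β h j k
    rcases j with _ | j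
    · refine ⟨W, 0, zero_mem _, ?_, hW0, ?_⟩
      · rw [hW]
        ring
      · rw [hWT, hc rfl]
        simp
    · refine ⟨W, algebraMap ℂ A c * (β ^ j * (β * h) * κi ^ (j + 1 + 1)), ?_, ?_, hW0, ?_⟩
      · exact mul_mem (V.algebraMap_mem c) (mul_mem (mul_mem (pow_mem hβ _) hβh) (pow_mem hκi _))
      · rw [hW, pow_zero, one_mul]
      · rw [hWT, if_neg (by omega), map_zero, zero_mul, zero_add]
        ring
  | succ l ih =>
    intro k j
    obtain ⟨W₁, v₁, hv₁, hW₁, hW₁0, hW₁T⟩ := ih (k + 1) j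
    obtain ⟨W₂, v₂, hv₂, hW₂, hW₂0, hW₂T⟩ := ih k (j + 1)
    refine ⟨Polynomial.C (algebraMap ℂ A μ) * W₁ + W₂, algebraMap ℂ A μ * v₁ + v₂,
      add_mem (mul_mem (V.algebraMap_mem μ) hv₁) hv₂, ?_, ?_, ?_⟩
    · rw [Polynomial.derivative_add, Polynomial.derivative_mul, Polynomial.derivative_C, hW₁, hW₂]
      ring
    · rw [Polynomial.eval_add, Polynomial.eval_mul, hW₁0, hW₂0, mul_zero, add_zero]
    · rw [Polynomial.eval_add, Polynomial.eval_mul, Polynomial.eval_C, hW₁T, hW₂T,
        if_neg (by omega : ¬ (j + 1 = 0)), map_zero, zero_mul, zero_add]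
      have e : algebraMap ℂ A (if j = 0 then μ ^ (l + 1) / ((k : ℂ) + ((l + 1 : ℕ) : ℂ) + 1) else 0) =
          algebraMap ℂ A μ *
            algebraMap ℂ A (if j = 0 then μ ^ l / (((k + 1 : ℕ) : ℂ) + l + 1) else 0) := by
        rw [← map_mul]
        congr 1
        split_ifs
        · push_cast
          rw [pow_succ, mul_comm (μ ^ l) μ, mul_div_assoc]
          congr 2
          ring
        · rw [mul_zero]
      rw [e]
      ring

/-- the antiderivative of `ρ(L, x, y)` along the orbit -/
theorem wint {κ κi : A} (hκ : κ * κi = 1) (β h : A) (μ : ℂ) (V : Subalgebra ℂ A) (hκi : κi ∈ V)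
    (hβ : β ∈ V) (hβh : β * h ∈ V) (ρ : MvPolynomial (Fin 3) ℂ)
    (hmem : ∀ d ∈ ρ.support, (β * h) ^ d 0 * h ^ (d 1 + d 2) ∈ V)
    (hG : ∑ d ∈ ρ.support, algebraMap ℂ A (ρ.coeff d * (μ ^ d 2 / ((d 1 : ℂ) + d 2 + 1))) *
      ((β * h) ^ d 0 * h ^ (d 1 + d 2)) = 0) :
    ∃ W : Polynomial A, Polynomial.derivative W =
      aeval ![Polynomial.C (β * h), xt κ, Polynomial.C (algebraMap ℂ A μ) * xt κ + yt κi β h] ρ ∧
      W.eval 0 = 0 ∧ W.eval (κi * h) ∈ V := by
  choose W v hv hW hW0 hWT using fun d : Fin 3 →₀ ℕ =>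
    wint1 hκ β h μ V hκi hβ hβh (d 2) (d 1) 0
  refine ⟨∑ d ∈ ρ.support, Polynomial.C (algebraMap ℂ A (ρ.coeff d) * (β * h) ^ d 0) * W d,
    ?_, ?_, ?_⟩
  · rw [Polynomial.derivative_sum]
    conv_rhs => rw [ρ.as_sum, map_sum]
    refine Finset.sum_congr rfl fun d _ => ?_
    rw [Polynomial.derivative_mul, Polynomial.derivative_C, hW, aeval_monomial,
      Finsupp.prod_fintype _ _ (fun i => pow_zero _), Fin.prod_univ_three]
    simp only [Matrix.cons_val_zero, Matrix.cons_val_one, Matrix.cons_val]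
    rw [Polynomial.C_mul, Polynomial.C_pow]
    change _ = Polynomial.C (algebraMap ℂ A (ρ.coeff d)) * _
    ring
  · rw [Polynomial.eval_finsetSum]
    refine Finset.sum_eq_zero fun d _ => ?_
    rw [Polynomial.eval_mul, hW0, mul_zero]
  · rw [Polynomial.eval_finsetSum]
    have e : ∑ d ∈ ρ.support, Polynomial.eval (κi * h)
        (Polynomial.C (algebraMap ℂ A (ρ.coeff d) * (β * h) ^ d 0) * W d) =
        h * κi * ∑ d ∈ ρ.support, algebraMap ℂ A (ρ.coeff d * (μ ^ d 2 / ((d 1 : ℂ) + d 2 + 1))) *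
          ((β * h) ^ d 0 * h ^ (d 1 + d 2)) +
        ∑ d ∈ ρ.support, algebraMap ℂ A (ρ.coeff d) * (((β * h) ^ d 0 * h ^ (d 1 + d 2)) * v d) := by
      rw [Finset.mul_sum, ← Finset.sum_add_distrib]
      refine Finset.sum_congr rfl fun d _ => ?_
      rw [Polynomial.eval_mul, Polynomial.eval_C, hWT, if_pos rfl, map_mul]
      ring
    rw [e, hG, mul_zero, zero_add]
    exact sum_mem fun d hd => mul_mem (V.algebraMap_mem _) (mul_mem (hmem d hd) (hv d))

end Pool.Agent.H41.TS
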