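import Mathlib
import Pool.Agent.H41.TS.Norm

/-!
# The fibre over the origin
-/

set_option autoImplicit false

open MvPolynomial

namespace Pool.Agent.H41.TS

/-- `ρ(0, x, y)` -/
noncomputable def rho0 (ρ : MvPolynomial (Fin 3) ℂ) : MvPolynomial (Fin 2) ℂ :=
  aeval ![0, X 0, X 1] ρ

theorem rho0_coeff (ρ : MvPolynomial (Fin 3) ℂ) (e : Fin 2 →₀ ℕ) :
    (rho0 ρ).coeff e = ρ.coeff (e.cons 0) := by
  rw [← finSuccEquiv_coeff_coeff]
  congr 1
  have h : ((Polynomial.aeval (R := MvPolynomial (Fin 2) ℂ) (0 : MvPolynomial (Fin 2) ℂ)).restrictScalars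
      ℂ).comp (finSuccEquiv ℂ 2).toAlgHom = aeval (R := ℂ) ![0, X 0, X 1] := by
    apply MvPolynomial.algHom_ext
    intro i
    have h1 : ∀ f, (((Polynomial.aeval (R := MvPolynomial (Fin 2) ℂ)
        (0 : MvPolynomial (Fin 2) ℂ)).restrictScalars
        ℂ).comp (finSuccEquiv ℂ 2).toAlgHom) f =
        Polynomial.aeval (R := MvPolynomial (Fin 2) ℂ) (0 : MvPolynomial (Fin 2) ℂ)
          (finSuccEquiv ℂ 2 f) := fun f => rfl
    rw [h1, aeval_X]
    fin_cases i
    · simp only [Fin.zero_eta]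
      rw [finSuccEquiv_X_zero]
      simp
    · have : (⟨1, by norm_num⟩ : Fin 3) = Fin.succ 0 := rfl
      rw [this, finSuccEquiv_X_succ]
      simp
    · have : (⟨2, by norm_num⟩ : Fin 3) = Fin.succ 1 := rfl
      rw [this, finSuccEquiv_X_succ]
      simp
  rw [rho0, ← h]
  change Polynomial.aeval (0 : MvPolynomial (Fin 2) ℂ) (finSuccEquiv ℂ 2 ρ) = _
  rw [Polynomial.aeval_def, Polynomial.eval₂_at_zero]
  rfl

/-- `C (ρ(0,x,y)) d/dz` -/
noncomputable def dl (ρ₀ : MvPolynomial (Fin 2) ℂ) :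
    Derivation (MvPolynomial (Fin 2) ℂ) (Polynomial (MvPolynomial (Fin 2) ℂ))
      (Polynomial (MvPolynomial (Fin 2) ℂ)) := (Polynomial.C ρ₀) • Polynomial.derivative'

theorem dl_apply (ρ₀ : MvPolynomial (Fin 2) ℂ) (f : Polynomial (MvPolynomial (Fin 2) ℂ)) :
    dl ρ₀ f = Polynomial.C ρ₀ * Polynomial.derivative f := rfl

theorem origin_fiber {p q : RR} (hpq : Algebra.adjoin ℂ {p, q} = ⊤) {D : Derivation RR BB BB}
    (hx : D (X 0) = C p) (hy : D (X 1) = C q) {ρ : MvPolynomial (Fin 3) ℂ} {w : SS}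
    (hz : D (X 2) = inc (nf p q ρ) + D (inc w)) {s : BB} (hs : D s = 1) :
    ρ.coeff 0 ≠ 0 ∧ ∀ d ∈ ρ.support, d 0 = 0 → d = 0 := by
  obtain ⟨φ, hφp, hφq⟩ := exists_hom hpq (0 : ℂ) 0
  set φC : RR →+* Polynomial (MvPolynomial (Fin 2) ℂ) :=
    (Polynomial.C (R := MvPolynomial (Fin 2) ℂ)).comp
      ((C : ℂ →+* MvPolynomial (Fin 2) ℂ).comp φ.toRingHom) with hφC
  have hφCr : ∀ r, φC r = Polynomial.C (C (φ r)) := fun r => rfl
  set E' : SS →+* Polynomial (MvPolynomial (Fin 2) ℂ) :=
    eval₂Hom φC ![Polynomial.C (X 0), Polynomial.C (X 1)] with hE'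
  have hE'C : ∀ r, E' (C r) = Polynomial.C (C (φ r)) := fun r => by rw [hE', eval₂Hom_C, hφCr]
  have hE'0 : E' (X 0) = Polynomial.C (X 0) := by rw [hE', eval₂Hom_X']; rfl
  have hE'1 : E' (X 1) = Polynomial.C (X 1) := by rw [hE', eval₂Hom_X']; rfl
  have hcommE' : ∀ f, E' (D0 p q f) = 0 := by
    intro f
    have := comm_of_gens E' (0 : Derivation ℂ (Polynomial (MvPolynomial (Fin 2) ℂ))
      (Polynomial (MvPolynomial (Fin 2) ℂ))) (D0 p q) (fun r => rfl) (by
        intro i
        fin_cases i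
        · simp only [Fin.zero_eta]
          rw [D0_X0, hE'C, hφp, map_zero, map_zero]
          rfl
        · simp only [Fin.mk_one]
          rw [D0_X1, hE'C, hφq, map_zero, map_zero]
          rfl) f
    rw [this]
    rfl
  have hnf : E' (nf p q ρ) = Polynomial.C (rho0 ρ) := by
    have h1 : (E'.comp (nf p q).toRingHom) = (Polynomial.C (R := MvPolynomial (Fin 2) ℂ)).comp
        (aeval (R := ℂ) ![(0 : MvPolynomial (Fin 2) ℂ), X 0, X 1]).toRingHom := by
      refine MvPolynomial.ringHom_ext ?_ ?_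
      · intro c
        have h2 : (nf p q).toRingHom (C c) = C (C c) := (nf p q).commutes c
        rw [RingHom.comp_apply, h2, hE'C]
        have h3 : φ (C c) = c := φ.commutes c
        rw [h3, RingHom.comp_apply]
        congr 1
        exact ((aeval (R := ℂ) ![(0 : MvPolynomial (Fin 2) ℂ), X 0, X 1]).commutes c).symm
      · intro i
        rw [RingHom.comp_apply, RingHom.comp_apply]
        have h4 : ∀ g, (nf p q).toRingHom g = nf p q g := fun g => rfl
        have h5 : ∀ g, (aeval (R := ℂ) ![(0 : MvPolynomial (Fin 2) ℂ), X 0, X 1]).toRingHom g =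
          aeval (R := ℂ) ![(0 : MvPolynomial (Fin 2) ℂ), X 0, X 1] g := fun g => rfl
        rw [h4, h5, aeval_X]
        fin_cases i
        · simp only [Fin.zero_eta]
          rw [nf_X0, Lel, map_sub, map_mul, map_mul, hE'C, hE'C, hφp, hφq]
          simp
        · simp only [Fin.mk_one]
          rw [nf_X1, hE'0]
          rfl
        · simp only [Fin.reduceFinMk]
          rw [nf_X2, hE'1]
          rfl
    exact RingHom.congr_fun h1 ρ
  set E : BB →+* Polynomial (MvPolynomial (Fin 2) ℂ) :=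
    eval₂Hom φC ![Polynomial.C (X 0), Polynomial.C (X 1), Polynomial.X] with hE
  have hEC : ∀ r, E (C r) = Polynomial.C (C (φ r)) := fun r => by rw [hE, eval₂Hom_C, hφCr]
  have hE0 : E (X 0) = Polynomial.C (X 0) := by rw [hE, eval₂Hom_X']; rfl
  have hE1 : E (X 1) = Polynomial.C (X 1) := by rw [hE, eval₂Hom_X']; rfl
  have hE2 : E (X 2) = Polynomial.X := by rw [hE, eval₂Hom_X']; rfl
  have hEinc : ∀ f, E (inc f) = E' f := by
    intro f
    have h1 : E.comp (inc : SS →ₐ[RR] BB).toRingHom = E' := by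
      refine MvPolynomial.ringHom_ext ?_ ?_
      · intro r
        have h2 : (inc : SS →ₐ[RR] BB).toRingHom (C r) = C r := inc_C r
        rw [RingHom.comp_apply, h2, hEC, hE'C]
      · intro i
        rw [RingHom.comp_apply]
        have h4 : ∀ g, (inc : SS →ₐ[RR] BB).toRingHom g = inc g := fun g => rfl
        rw [h4]
        fin_cases i
        · simp only [Fin.zero_eta]
          rw [inc_X0, hE0, hE'0]
        · simp only [Fin.mk_one]
          rw [inc_X1, hE1, hE'1]
    exact RingHom.congr_fun h1 f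
  have hcommE : ∀ f, E (D f) = Polynomial.C (rho0 ρ) * Polynomial.derivative (E f) := by
    intro f
    refine comm_of_gens E (dl (rho0 ρ)) D ?_ ?_ f
    · intro r
      rw [hEC, dl_apply, Polynomial.derivative_C, mul_zero]
    · intro i
      rw [dl_apply]
      fin_cases i
      · simp only [Fin.zero_eta]
        rw [hx, hEC, hE0, hφp, Polynomial.derivative_C, map_zero, map_zero, mul_zero]
      · simp only [Fin.mk_one]
        rw [hy, hEC, hE1, hφq, Polynomial.derivative_C, map_zero, map_zero, mul_zero]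
      · simp only [Fin.reduceFinMk]
        rw [hz, map_add, hEinc, hnf, ← inc_D0 hx hy, hEinc, hcommE', hE2,
          Polynomial.derivative_X, add_zero, mul_one]
  have h1 : Polynomial.C (rho0 ρ) * Polynomial.derivative (E s) = 1 := by
    rw [← hcommE, hs, map_one]
  have h2 : IsUnit (rho0 ρ) := Polynomial.isUnit_C.1 (IsUnit.of_mul_eq_one _ h1)
  rw [isUnit_iff_eq_C_of_isReduced] at h2
  obtain ⟨r, hr, hρ⟩ := h2
  constructor
  · have h3 := rho0_coeff ρ 0
    rw [Finsupp.cons_zero_zero, hρ, coeff_zero_C] at h3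
    rw [← h3]
    exact hr.ne_zero
  · intro d hd hd0
    have h3 := rho0_coeff ρ d.tail
    rw [hρ] at h3
    have h4 : d.tail.cons 0 = d := by
      have := Finsupp.cons_tail d
      rwa [hd0] at this
    rw [h4] at h3
    by_contra hne
    have h5 : d.tail ≠ 0 := by
      intro h6
      apply hne
      rw [← h4, h6, Finsupp.cons_zero_zero]
    rw [coeff_C, if_neg (Ne.symm h5)] at h3
    exact (mem_support_iff.1 hd) h3.symm

end Pool.Agent.H41.TS
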