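import Mathlib

/-!
# Small roots of polynomials depending on a parameter
-/

set_option autoImplicit false

open Polynomial

namespace Pool.Agent.H41.TS

theorem root_bound (m : ℕ) (g : ℕ → ℂ) (c : ℂ) (hc : c ≠ 0) (hg : ∃ v ∈ Finset.Icc 1 m, g v ≠ 0) :
    ∃ ℓ : ℂ, c + ∑ v ∈ Finset.Icc 1 m, g v * ℓ ^ v = 0 ∧
      ∀ v ∈ Finset.Icc 1 m, ‖g v‖ * ‖ℓ‖ ^ v ≤ ‖c‖ * 2 ^ m := by
  classical
  set S : ℂ[X] := ∑ v ∈ Finset.Icc 1 m, C (g v / c) * X ^ (m - v) with hS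
  set Q : ℂ[X] := X ^ m + S with hQ
  obtain ⟨v₀, hv₀, hgv₀⟩ := hg
  have hm : 1 ≤ m := (Finset.mem_Icc.1 hv₀).1.trans (Finset.mem_Icc.1 hv₀).2
  have hSdeg : S.degree < m := by
    rw [← mem_degreeLT]
    refine Submodule.sum_mem _ fun v hv => ?_
    rw [mem_degreeLT]
    refine lt_of_le_of_lt (degree_C_mul_X_pow_le _ _) ?_
    have := Finset.mem_Icc.1 hv
    exact_mod_cast (by omega : m - v < m)
  have hmon : Q.Monic := monic_X_pow_add hSdeg
  have hnat : Q.natDegree = m := by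
    rw [hQ, natDegree_add_eq_left_of_degree_lt (by rw [degree_X_pow]; exact hSdeg),
      natDegree_X_pow]
  have hcoef : ∀ v ∈ Finset.Icc 1 m, Q.coeff (m - v) = g v / c := by
    intro v hv
    have hv' := Finset.mem_Icc.1 hv
    rw [hQ, coeff_add, coeff_X_pow, if_neg (by omega), zero_add, hS, finsetSum_coeff,
      Finset.sum_eq_single v]
    · rw [coeff_C_mul, coeff_X_pow, if_pos rfl, mul_one]
    · intro b hb hbv
      have hb' := Finset.mem_Icc.1 hb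
      rw [coeff_C_mul, coeff_X_pow, if_neg (by omega), mul_zero]
    · intro h; exact absurd hv h
  have hQ0 : Q ≠ 0 := hmon.ne_zero
  have hdeg : Q.degree ≠ 0 := by
    rw [degree_eq_natDegree hQ0, hnat]
    exact_mod_cast (by omega : m ≠ 0)
  obtain ⟨z₀, hz₀⟩ := IsAlgClosed.exists_root Q hdeg
  have hne : Q.roots.toFinset.Nonempty :=
    ⟨z₀, by rw [Multiset.mem_toFinset, mem_roots hQ0]; exact hz₀⟩
  obtain ⟨w, hw, hwmax⟩ := Finset.exists_max_image Q.roots.toFinset (fun z => ‖z‖) hne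
  rw [Multiset.mem_toFinset, mem_roots hQ0] at hw
  have hb : ∀ i, ‖Q.coeff i‖ ≤ ‖w‖ ^ (m - i) * m.choose i := by
    intro i
    have h1 := coeff_le_of_roots_le (p := Q) (f := RingHom.id ℂ) (B := ‖w‖) i hmon
      (by rw [Polynomial.map_id]; exact IsAlgClosed.splits Q) (by
        intro z hz
        rw [Polynomial.map_id] at hz
        exact hwmax z (Multiset.mem_toFinset.2 hz))
    rwa [Polynomial.map_id, hnat] at h1
  have hbv : ∀ v ∈ Finset.Icc 1 m, ‖g v‖ ≤ ‖c‖ * 2 ^ m * ‖w‖ ^ v := by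
    intro v hv
    have hv' := Finset.mem_Icc.1 hv
    have h1 := hb (m - v)
    rw [hcoef v hv, norm_div, Nat.sub_sub_self hv'.2, div_le_iff₀ (norm_pos_iff.2 hc)] at h1
    refine h1.trans ?_
    have h2 : ((m.choose (m - v) : ℕ) : ℝ) ≤ 2 ^ m := by
      exact_mod_cast Nat.choose_le_two_pow m (m - v)
    calc ‖w‖ ^ v * (m.choose (m - v) : ℝ) * ‖c‖ ≤ ‖w‖ ^ v * 2 ^ m * ‖c‖ := by gcongr
      _ = ‖c‖ * 2 ^ m * ‖w‖ ^ v := by ring
  have hw0 : w ≠ 0 := by
    rintro rfl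
    have h1 := hbv v₀ hv₀
    rw [norm_zero, zero_pow (by have := Finset.mem_Icc.1 hv₀; omega), mul_zero] at h1
    exact hgv₀ (norm_le_zero_iff.1 h1)
  refine ⟨w⁻¹, ?_, ?_⟩
  · have h1 : Q.eval w = 0 := hw
    rw [hQ, eval_add, eval_pow, eval_X, hS, eval_finsetSum] at h1
    have h2 : ∀ v ∈ Finset.Icc 1 m, eval w (C (g v / c) * X ^ (m - v)) =
        w ^ m / c * (g v * w⁻¹ ^ v) := by
      intro v hv
      have hv' := Finset.mem_Icc.1 hv
      rw [eval_mul, eval_C, eval_pow, eval_X, inv_pow, pow_sub₀ w hw0 hv'.2]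
      field_simp
    rw [Finset.sum_congr rfl h2, ← Finset.mul_sum] at h1
    have h3 : w ^ m / c * (c + ∑ v ∈ Finset.Icc 1 m, g v * w⁻¹ ^ v) = 0 := by
      rw [mul_add, div_mul_cancel₀ _ hc]
      exact h1
    exact (mul_eq_zero.1 h3).resolve_left (div_ne_zero (pow_ne_zero _ hw0) hc)
  · intro v hv
    rw [norm_inv, inv_pow, ← div_eq_mul_inv, div_le_iff₀ (pow_pos (norm_pos_iff.2 hw0) v)]
    exact hbv v hv

/-- upper bound for polynomials at natural numbers -/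
theorem poly_upper (g : ℂ[X]) (M : ℕ) (hg : g.natDegree ≤ M) (n : ℕ) (hn : 1 ≤ n) :
    ‖g.eval (n : ℂ)‖ ≤ (∑ i ∈ Finset.range (M + 1), ‖g.coeff i‖) * (n : ℝ) ^ M := by
  rw [eval_eq_sum_range' (Nat.lt_succ_of_le hg), Finset.sum_mul]
  refine (norm_sum_le _ _).trans (Finset.sum_le_sum fun i hi => ?_)
  rw [norm_mul, norm_pow, Complex.norm_natCast]
  refine mul_le_mul_of_nonneg_left ?_ (norm_nonneg _)
  refine pow_le_pow_right₀ (by exact_mod_cast hn) ?_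
  have := Finset.mem_range.1 hi
  omega

/-- lower bound for polynomials at natural numbers -/
theorem poly_lower (g : ℂ[X]) (hg : g ≠ 0) : ∃ (c : ℝ) (N : ℕ), 0 < c ∧ ∀ n : ℕ, N ≤ n →
    (n : ℝ) ^ g.natDegree ≤ c * ‖g.eval (n : ℂ)‖ := by
  set M := g.natDegree with hM
  have hlead : 0 < ‖g.leadingCoeff‖ := norm_pos_iff.2 (leadingCoeff_ne_zero.2 hg)
  rcases Nat.eq_zero_or_pos M with h0 | hpos
  · refine ⟨‖g.leadingCoeff‖⁻¹, 0, inv_pos.2 hlead, fun n _ => ?_⟩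
    have h1 : g = C g.leadingCoeff := by
      rw [leadingCoeff, ← hM, h0]
      exact eq_C_of_natDegree_eq_zero (by rw [← hM, h0])
    rw [h0, pow_zero]
    conv_rhs => rw [h1, eval_C, leadingCoeff_C]
    rw [inv_mul_cancel₀ hlead.ne']
  · set S := ∑ i ∈ Finset.range (M - 1 + 1), ‖g.eraseLead.coeff i‖ with hS
    have hS0 : 0 ≤ S := Finset.sum_nonneg fun _ _ => norm_nonneg _
    refine ⟨2 / ‖g.leadingCoeff‖, ⌈2 * S / ‖g.leadingCoeff‖⌉₊ + 1, by positivity,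
      fun n hn => ?_⟩
    have hn1 : 1 ≤ n := by omega
    have hn2 : 2 * S / ‖g.leadingCoeff‖ ≤ n := by
      refine (Nat.le_ceil _).trans ?_
      exact_mod_cast (by omega : ⌈2 * S / ‖g.leadingCoeff‖⌉₊ ≤ n)
    have hnpos : (0 : ℝ) < n := by exact_mod_cast hn1
    have hdeg : g.eraseLead.natDegree ≤ M - 1 := eraseLead_natDegree_le g
    have h1 := poly_upper g.eraseLead (M - 1) hdeg n hn1
    rw [← hS] at h1
    have h2 : g.eval (n : ℂ) = g.eraseLead.eval (n : ℂ) + g.leadingCoeff * (n : ℂ) ^ M := by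
      conv_lhs => rw [← eraseLead_add_C_mul_X_pow g]
      rw [eval_add, eval_mul, eval_C, eval_pow, eval_X]
    have h3 : ‖g.leadingCoeff‖ * (n : ℝ) ^ M - S * (n : ℝ) ^ (M - 1) ≤ ‖g.eval (n : ℂ)‖ := by
      rw [h2]
      have h4 : ‖g.leadingCoeff * (n : ℂ) ^ M‖ = ‖g.leadingCoeff‖ * (n : ℝ) ^ M := by
        rw [norm_mul, norm_pow, Complex.norm_natCast]
      have h5 := norm_sub_norm_le (g.leadingCoeff * (n : ℂ) ^ M) (- g.eraseLead.eval (n : ℂ))
      rw [norm_neg, sub_neg_eq_add, add_comm (g.leadingCoeff * (n : ℂ) ^ M), h4] at h5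
      linarith
    have h6 : S * (n : ℝ) ^ (M - 1) ≤ ‖g.leadingCoeff‖ / 2 * (n : ℝ) ^ M := by
      have h7 : (n : ℝ) ^ M = (n : ℝ) * (n : ℝ) ^ (M - 1) := by
        rw [← pow_succ', Nat.sub_add_cancel hpos]
      rw [h7, ← mul_assoc]
      refine mul_le_mul_of_nonneg_right ?_ (by positivity)
      rw [div_le_iff₀ hlead] at hn2
      linarith
    rw [div_mul_eq_mul_div, le_div_iff₀ hlead]
    linarith

end Pool.Agent.H41.TS
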