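import Mathlib
import Pool.Agent.H41.TS.Root

/-!
# Sequences of points on the curve `G(ℓ, h) = 0`
-/

set_option autoImplicit false

namespace Pool.Agent.H41.TS

open Polynomial in
/-- the coefficient of `L^v x^M` in `ρ(L, x, μ x)` as a polynomial in `μ` -/
noncomputable def PvM (ρ : MvPolynomial (Fin 3) ℂ) (v M : ℕ) : ℂ[X] :=
  ∑ d ∈ ρ.support.filter (fun d => d 0 = v ∧ d 1 + d 2 = M), C (ρ.coeff d) * X ^ d 2

open Polynomial in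
theorem PvM_ne_zero (ρ : MvPolynomial (Fin 3) ℂ) (d : Fin 3 →₀ ℕ) (hd : d ∈ ρ.support) :
    PvM ρ (d 0) (d 1 + d 2) ≠ 0 := by
  intro h
  have h1 := congrArg (fun f => f.coeff (d 2)) h
  simp only [coeff_zero] at h1
  rw [PvM, finsetSum_coeff, Finset.sum_eq_single d] at h1
  · rw [coeff_C_mul, coeff_X_pow, if_pos rfl, mul_one] at h1
    exact (MvPolynomial.mem_support_iff.1 hd) h1
  · intro e he hne
    rw [coeff_C_mul, coeff_X_pow, if_neg, mul_zero]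
    intro h2
    apply hne
    obtain ⟨h3, h4⟩ := (Finset.mem_filter.1 he).2
    ext i
    fin_cases i
    · exact h3
    · change e 1 = d 1
      omega
    · exact h2.symm
  · intro h2
    exact absurd (Finset.mem_filter.2 ⟨hd, rfl, rfl⟩) h2

open Polynomial in
theorem exists_mu (ρ : MvPolynomial (Fin 3) ℂ) :
    ∃ μ : ℂ, ∀ d ∈ ρ.support, (PvM ρ (d 0) (d 1 + d 2)).eval μ ≠ 0 := by
  set Q : ℂ[X] := ∏ d ∈ ρ.support, PvM ρ (d 0) (d 1 + d 2) with hQ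
  have hQ0 : Q ≠ 0 := Finset.prod_ne_zero_iff.2 fun d hd => PvM_ne_zero ρ d hd
  obtain ⟨μ, hμ⟩ := Infinite.exists_notMem_finset Q.roots.toFinset
  refine ⟨μ, fun d hd h => hμ ?_⟩
  rw [Multiset.mem_toFinset, mem_roots hQ0, IsRoot.def, hQ, eval_prod]
  exact Finset.prod_eq_zero hd h

open Polynomial in
/-- the coefficient of `ℓ^v` in `G(ℓ, h)` -/
noncomputable def Gv (ρ : MvPolynomial (Fin 3) ℂ) (μ : ℂ) (v : ℕ) : ℂ[X] :=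
  ∑ d ∈ ρ.support.filter (fun d => d 0 = v),
    C (ρ.coeff d * (μ ^ d 2 / ((d 1 : ℂ) + d 2 + 1))) * X ^ (d 1 + d 2)

open Polynomial in
theorem Gv_coeff (ρ : MvPolynomial (Fin 3) ℂ) (μ : ℂ) (v M : ℕ) :
    (Gv ρ μ v).coeff M = (PvM ρ v M).eval μ / ((M : ℂ) + 1) := by
  rw [Gv, finsetSum_coeff, PvM, eval_finsetSum, Finset.sum_div, Finset.sum_filter,
    Finset.sum_filter]
  refine Finset.sum_congr rfl fun d _ => ?_
  rw [coeff_C_mul, coeff_X_pow]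
  by_cases h1 : d 0 = v
  · by_cases h2 : d 1 + d 2 = M
    · rw [if_pos h1, if_pos h2.symm, if_pos ⟨h1, h2⟩, eval_mul, eval_C, eval_pow, eval_X, mul_one,
        ← h2]
      push_cast
      ring
    · rw [if_pos h1, if_neg (Ne.symm h2), if_neg (fun h => h2 h.2), mul_zero]
  · rw [if_neg h1, if_neg (fun h => h1 h.1)]

open Polynomial in
theorem G_sum (ρ : MvPolynomial (Fin 3) ℂ) (μ : ℂ) (h0 : ρ.coeff 0 ≠ 0)
    (h1 : ∀ d ∈ ρ.support, d 0 = 0 → d = 0) (m : ℕ) (hm : ∀ d ∈ ρ.support, d 0 ≤ m) (ℓ h : ℂ) :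
    ∑ d ∈ ρ.support, (ρ.coeff d * (μ ^ d 2 / ((d 1 : ℂ) + d 2 + 1))) *
        (ℓ ^ d 0 * h ^ (d 1 + d 2)) =
      ρ.coeff 0 + ∑ v ∈ Finset.Icc 1 m, (Gv ρ μ v).eval h * ℓ ^ v := by
  have e1 : ∑ d ∈ ρ.support, (ρ.coeff d * (μ ^ d 2 / ((d 1 : ℂ) + d 2 + 1))) *
        (ℓ ^ d 0 * h ^ (d 1 + d 2)) = ∑ v ∈ Finset.range (m + 1), (Gv ρ μ v).eval h * ℓ ^ v := by
    rw [← Finset.sum_fiberwise_of_maps_to (s := ρ.support) (t := Finset.range (m + 1))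
      (g := fun d => d 0) (fun d hd => Finset.mem_range.2 (Nat.lt_succ_of_le (hm d hd)))]
    refine Finset.sum_congr rfl fun v _ => ?_
    rw [Gv, eval_finsetSum, Finset.sum_mul]
    refine Finset.sum_congr rfl fun d hd => ?_
    rw [(Finset.mem_filter.1 hd).2, eval_mul, eval_C, eval_pow, eval_X]
    ring
  rw [e1, Finset.sum_range_eq_add_Ico _ (Nat.succ_pos m)]
  congr 1
  have e2 : ρ.support.filter (fun d => d 0 = 0) = {0} := by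
    ext d
    rw [Finset.mem_filter, Finset.mem_singleton]
    constructor
    · rintro ⟨ha, hb⟩
      exact h1 d ha hb
    · rintro rfl
      exact ⟨MvPolynomial.mem_support_iff.2 h0, rfl⟩
  rw [Gv, e2, Finset.sum_singleton]
  simp

theorem exists_seq (ρ : MvPolynomial (Fin 3) ℂ) (h0 : ρ.coeff 0 ≠ 0)
    (h1 : ∀ d ∈ ρ.support, d 0 = 0 → d = 0) (h2 : ∃ d ∈ ρ.support, d ≠ 0) :
    ∃ (μ : ℂ) (ℓ h : ℕ → ℂ), (∀ n, h n ≠ 0) ∧ (∃ c : ℝ, ∀ n, ‖ℓ n‖ ≤ c) ∧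
      (∃ c : ℝ, ∀ n, ‖ℓ n / h n‖ ≤ c) ∧
      (∀ d ∈ ρ.support, ∃ c : ℝ, ∀ n, ‖ℓ n ^ d 0 * h n ^ (d 1 + d 2)‖ ≤ c) ∧
      (∀ n, ∑ d ∈ ρ.support, (ρ.coeff d * (μ ^ d 2 / ((d 1 : ℂ) + d 2 + 1))) *
        (ℓ n ^ d 0 * h n ^ (d 1 + d 2)) = 0) ∧ ¬ ∃ c : ℝ, ∀ n, ‖h n‖ ≤ c := by
  classical
  obtain ⟨μ, hμ⟩ := exists_mu ρ
  set m := ρ.support.sup (fun d => d 0) with hm
  have hm' : ∀ d ∈ ρ.support, d 0 ≤ m := fun d hd => Finset.le_sup (f := fun d => d 0) hd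
  have hco : ∀ d ∈ ρ.support, (Gv ρ μ (d 0)).coeff (d 1 + d 2) ≠ 0 := by
    intro d hd
    rw [Gv_coeff]
    exact div_ne_zero (hμ d hd) (by exact_mod_cast Nat.succ_ne_zero (d 1 + d 2))
  have hne : ∀ d ∈ ρ.support, Gv ρ μ (d 0) ≠ 0 := by
    intro d hd h
    apply hco d hd
    rw [h, Polynomial.coeff_zero]
  have hlow : ∀ v : ℕ, ∃ (c : ℝ) (N : ℕ), 0 < c ∧ (Gv ρ μ v ≠ 0 → ∀ n : ℕ, N ≤ n →
      (n : ℝ) ^ (Gv ρ μ v).natDegree ≤ c * ‖(Gv ρ μ v).eval (n : ℂ)‖) := by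
    intro v
    by_cases hv : Gv ρ μ v = 0
    · exact ⟨1, 0, one_pos, fun h => absurd hv h⟩
    · obtain ⟨c, N, hc, hN⟩ := poly_lower _ hv
      exact ⟨c, N, hc, fun _ => hN⟩
  choose c N hc hN using hlow
  set N₀ := 1 + ∑ v ∈ Finset.range (m + 1), N v with hN₀
  have hNle : ∀ v ≤ m, N v ≤ N₀ := by
    intro v hv
    have : N v ≤ ∑ v ∈ Finset.range (m + 1), N v :=
      Finset.single_le_sum (f := N) (fun _ _ => Nat.zero_le _)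
        (Finset.mem_range.2 (Nat.lt_succ_of_le hv))
    omega
  set h : ℕ → ℂ := fun n => ((n + N₀ : ℕ) : ℂ) with hh
  have hnorm : ∀ n, ‖h n‖ = ((n + N₀ : ℕ) : ℝ) := fun n => by
    rw [hh]
    exact Complex.norm_natCast _
  have hone : ∀ n, (1 : ℝ) ≤ ‖h n‖ := by
    intro n
    rw [hnorm]
    exact_mod_cast (by omega : 1 ≤ n + N₀)
  have hh0 : ∀ n, h n ≠ 0 := fun n => norm_pos_iff.1 (one_pos.trans_le (hone n))
  have hkey : ∀ d ∈ ρ.support, ∀ n, ‖h n‖ ^ (d 1 + d 2) ≤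
      c (d 0) * ‖(Gv ρ μ (d 0)).eval (h n)‖ := by
    intro d hd n
    have h3 := hN (d 0) (hne d hd) (n + N₀) ((hNle _ (hm' d hd)).trans (Nat.le_add_left _ _))
    refine le_trans ?_ h3
    rw [← hnorm]
    exact pow_le_pow_right₀ (hone n) (Polynomial.le_natDegree_of_ne_zero (hco d hd))
  obtain ⟨d₀, hd₀, hd₀ne⟩ := h2
  have hd₀1 : 1 ≤ d₀ 0 := by
    by_contra hcon
    exact hd₀ne (h1 d₀ hd₀ (by omega))
  have hroot : ∀ n, ∃ ℓ : ℂ, ρ.coeff 0 + ∑ v ∈ Finset.Icc 1 m, (Gv ρ μ v).eval (h n) * ℓ ^ v = 0 ∧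
      ∀ v ∈ Finset.Icc 1 m, ‖(Gv ρ μ v).eval (h n)‖ * ‖ℓ‖ ^ v ≤ ‖ρ.coeff 0‖ * 2 ^ m := by
    intro n
    refine root_bound m (fun v => (Gv ρ μ v).eval (h n)) (ρ.coeff 0) h0
      ⟨d₀ 0, Finset.mem_Icc.2 ⟨hd₀1, hm' d₀ hd₀⟩, ?_⟩
    intro h3
    have h4 := hkey d₀ hd₀ n
    rw [h3, norm_zero, mul_zero] at h4
    exact absurd h4 (not_le.2 (pow_pos (one_pos.trans_le (hone n)) _))
  choose ℓ hℓ1 hℓ2 using hroot
  have hbd : ∀ d ∈ ρ.support, 1 ≤ d 0 → ∀ n, ‖ℓ n‖ ^ d 0 * ‖h n‖ ^ (d 1 + d 2) ≤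
      c (d 0) * (‖ρ.coeff 0‖ * 2 ^ m) := by
    intro d hd hd1 n
    calc ‖ℓ n‖ ^ d 0 * ‖h n‖ ^ (d 1 + d 2) ≤
          ‖ℓ n‖ ^ d 0 * (c (d 0) * ‖(Gv ρ μ (d 0)).eval (h n)‖) :=
          mul_le_mul_of_nonneg_left (hkey d hd n) (by positivity)
      _ = c (d 0) * (‖(Gv ρ μ (d 0)).eval (h n)‖ * ‖ℓ n‖ ^ d 0) := by ring
      _ ≤ c (d 0) * (‖ρ.coeff 0‖ * 2 ^ m) :=
          mul_le_mul_of_nonneg_left (hℓ2 n _ (Finset.mem_Icc.2 ⟨hd1, hm' d hd⟩)) (hc _).le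
  set B := max 1 (c (d₀ 0) * (‖ρ.coeff 0‖ * 2 ^ m)) with hB
  have hℓbd : ∀ n, ‖ℓ n‖ ≤ B := by
    intro n
    rcases le_or_gt ‖ℓ n‖ 1 with h3 | h3
    · exact h3.trans (le_max_left _ _)
    · refine le_trans ?_ (le_max_right _ _)
      refine le_trans ?_ (hbd d₀ hd₀ hd₀1 n)
      calc ‖ℓ n‖ = ‖ℓ n‖ ^ 1 * 1 := by ring
        _ ≤ ‖ℓ n‖ ^ d₀ 0 * ‖h n‖ ^ (d₀ 1 + d₀ 2) :=
          mul_le_mul (pow_le_pow_right₀ h3.le hd₀1) (one_le_pow₀ (hone n)) zero_le_one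
            (by positivity)
  refine ⟨μ, ℓ, h, hh0, ⟨B, hℓbd⟩, ⟨B, fun n => ?_⟩, fun d hd => ?_, fun n => ?_, ?_⟩
  · rw [norm_div, div_le_iff₀ (one_pos.trans_le (hone n))]
    have hB0 : 0 ≤ B := zero_le_one.trans (le_max_left _ _)
    calc ‖ℓ n‖ ≤ B := hℓbd n
      _ = B * 1 := (mul_one B).symm
      _ ≤ B * ‖h n‖ := mul_le_mul_of_nonneg_left (hone n) hB0
  · rcases Nat.eq_zero_or_pos (d 0) with h3 | h3
    · have h4 := h1 d hd h3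
      subst h4
      exact ⟨1, fun n => by simp⟩
    · refine ⟨c (d 0) * (‖ρ.coeff 0‖ * 2 ^ m), fun n => ?_⟩
      rw [norm_mul, norm_pow, norm_pow]
      exact hbd d hd h3 n
  · rw [G_sum ρ μ h0 h1 m hm']
    exact hℓ1 n
  · rintro ⟨b, hb⟩
    obtain ⟨n, hn⟩ := exists_nat_gt b
    have h3 := hb n
    rw [hnorm] at h3
    push_cast at h3
    have h4 : (0 : ℝ) ≤ N₀ := Nat.cast_nonneg _
    linarith

end Pool.Agent.H41.TS
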