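import Mathlib
import Pool.Agent.H41.TS.Gen

/-!
# The kernel of `D x = p`, `D y = q`, `D z = c + D w`
-/

set_option autoImplicit false

open MvPolynomial

namespace Pool.Agent.H41.TS

theorem D_C (D : Derivation RR BB BB) (r : RR) : D (C r) = 0 := D.map_algebraMap r

theorem ker_aux {A : Type*} [CommRing A] (a b x y : A) (h : a * b = 1) :
    a * (b * x + y - y) = x := by
  linear_combination x * h

theorem ker_const {p q : RR} {D : Derivation RR BB BB}
    (hx : D (X 0) = C p) (hy : D (X 1) = C q) {c : ℂ} (hc : c ≠ 0) {w : SS}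
    (hz : D (X 2) = C (C c) + D (inc w)) :
    ∃ φ : SS →ₐ[RR] BB, Function.Injective φ ∧ ∀ f : BB, D f = 0 ↔ f ∈ φ.range := by
  have hcc : (C (C c⁻¹) * C (C c) : BB) = 1 := by
    rw [← C_mul, ← C_mul, inv_mul_cancel₀ hc, C_1, C_1]
  set z' : BB := C (C c⁻¹) * (X 2 - inc w) with hz'
  have hDz' : D z' = 1 := by
    rw [hz', Derivation.leibniz, D_C, smul_zero, add_zero, map_sub, hz, smul_eq_mul,
      add_sub_cancel_right, hcc]
  set φ : SS →ₐ[RR] BB := aeval ![X 0 - C p * z', X 1 - C q * z'] with hφ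
  have hφ0 : φ (X 0) = X 0 - C p * z' := by rw [hφ, aeval_X]; rfl
  have hφ1 : φ (X 1) = X 1 - C q * z' := by rw [hφ, aeval_X]; rfl
  have hφC : ∀ r, φ (C r) = C r := fun r => φ.commutes r
  have hDφ : ∀ f, D (φ f) = 0 := by
    intro f
    induction f using MvPolynomial.induction_on with
    | C r => rw [hφC, D_C]
    | add f g hf hg => rw [map_add, map_add, hf, hg, add_zero]
    | mul_X f i hf =>
      rw [map_mul, Derivation.leibniz, hf, smul_zero, add_zero]
      have h : D (φ (X i)) = 0 := by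
        fin_cases i
        · simp only [Fin.zero_eta]
          rw [hφ0, map_sub, hx, Derivation.leibniz, D_C, hDz', smul_zero, add_zero, smul_eq_mul,
            mul_one, sub_self]
        · simp only [Fin.mk_one]
          rw [hφ1, map_sub, hy, Derivation.leibniz, D_C, hDz', smul_zero, add_zero, smul_eq_mul,
            mul_one, sub_self]
      rw [h, smul_zero]
  -- the inverse
  set κC : RR →+* Polynomial SS := (Polynomial.C (R := SS)).comp (C : RR →+* SS) with hκC
  have hκCr : ∀ r, κC r = Polynomial.C (C r) := fun r => rfl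
  set xx : Polynomial SS := Polynomial.C (X 0) + Polynomial.C (C p) * Polynomial.X with hxx
  set yy : Polynomial SS := Polynomial.C (X 1) + Polynomial.C (C q) * Polynomial.X with hyy
  set Ψ' : SS →+* Polynomial SS := eval₂Hom κC ![xx, yy] with hΨ'
  have hΨ'C : ∀ r, Ψ' (C r) = Polynomial.C (C r) := fun r => by rw [hΨ', eval₂Hom_C, hκCr]
  have hΨ'0 : Ψ' (X 0) = xx := by rw [hΨ', eval₂Hom_X']; rfl
  have hΨ'1 : Ψ' (X 1) = yy := by rw [hΨ', eval₂Hom_X']; rfl
  set Ψ : BB →+* Polynomial SS :=
    eval₂Hom κC ![xx, yy, Polynomial.C (C (C c)) * Polynomial.X + Ψ' w] with hΨ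
  have hΨC : ∀ r, Ψ (C r) = Polynomial.C (C r) := fun r => by rw [hΨ, eval₂Hom_C, hκCr]
  have hΨ0 : Ψ (X 0) = xx := by rw [hΨ, eval₂Hom_X']; rfl
  have hΨ1 : Ψ (X 1) = yy := by rw [hΨ, eval₂Hom_X']; rfl
  have hΨ2 : Ψ (X 2) = Polynomial.C (C (C c)) * Polynomial.X + Ψ' w := by
    rw [hΨ, eval₂Hom_X']; rfl
  have hΨinc : ∀ f, Ψ (inc f) = Ψ' f := by
    intro f
    have h1 : Ψ.comp (inc : SS →ₐ[RR] BB).toRingHom = Ψ' := by
      refine MvPolynomial.ringHom_ext ?_ ?_
      · intro r
        have h2 : (inc : SS →ₐ[RR] BB).toRingHom (C r) = C r := inc_C r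
        rw [RingHom.comp_apply, h2, hΨC, hΨ'C]
      · intro i
        rw [RingHom.comp_apply]
        have h4 : ∀ g, (inc : SS →ₐ[RR] BB).toRingHom g = inc g := fun g => rfl
        rw [h4]
        fin_cases i
        · simp only [Fin.zero_eta]
          rw [inc_X0, hΨ0, hΨ'0]
        · simp only [Fin.mk_one]
          rw [inc_X1, hΨ1, hΨ'1]
    exact RingHom.congr_fun h1 f
  have hΨz' : Ψ z' = Polynomial.X := by
    have h1 : (Polynomial.C (C (C c⁻¹)) * Polynomial.C (C (C c)) : Polynomial SS) = 1 := by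
      rw [← Polynomial.C_mul, ← C_mul, ← C_mul, inv_mul_cancel₀ hc, C_1, C_1, Polynomial.C_1]
    rw [hz', map_mul, map_sub, hΨC, hΨ2, hΨinc]
    exact ker_aux (A := Polynomial SS) _ _ _ _ h1
  have hΨφ : ∀ f, Ψ (φ f) = Polynomial.C f := by
    intro f
    have h1 : Ψ.comp φ.toRingHom = (Polynomial.C (R := SS)) := by
      refine MvPolynomial.ringHom_ext ?_ ?_
      · intro r
        have h2 : φ.toRingHom (C r) = C r := hφC r
        rw [RingHom.comp_apply, h2, hΨC]
      · intro i
        rw [RingHom.comp_apply]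
        have h4 : ∀ g, φ.toRingHom g = φ g := fun g => rfl
        rw [h4]
        fin_cases i
        · simp only [Fin.zero_eta]
          rw [hφ0, map_sub, map_mul, hΨ0, hΨC, hΨz', hxx]
          ring
        · simp only [Fin.mk_one]
          rw [hφ1, map_sub, map_mul, hΨ1, hΨC, hΨz', hyy]
          ring
    exact RingHom.congr_fun h1 f
  have hinj : Function.Injective φ := by
    intro f g hfg
    have h1 := congrArg Ψ hfg
    rw [hΨφ, hΨφ] at h1
    exact Polynomial.C_injective h1
  set Φ : Polynomial SS →+* BB := Polynomial.eval₂RingHom φ.toRingHom z' with hΦ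
  have hΦC : ∀ f, Φ (Polynomial.C f) = φ f := fun f => by
    rw [hΦ, Polynomial.coe_eval₂RingHom, Polynomial.eval₂_C]; rfl
  have hΦX : Φ Polynomial.X = z' := by
    rw [hΦ, Polynomial.coe_eval₂RingHom, Polynomial.eval₂_X]
  have hΨΦ : ∀ g, Ψ (Φ g) = g := by
    intro g
    have h1 : Ψ.comp Φ = RingHom.id _ := by
      refine Polynomial.ringHom_ext ?_ ?_
      · intro f
        rw [RingHom.comp_apply, hΦC, hΨφ]
        rfl
      · rw [RingHom.comp_apply, hΦX, hΨz']
        rfl
    exact RingHom.congr_fun h1 g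
  have hΦΨ' : ∀ f, Φ (Ψ' f) = inc f := by
    intro f
    have h1 : Φ.comp Ψ' = (inc : SS →ₐ[RR] BB).toRingHom := by
      refine MvPolynomial.ringHom_ext ?_ ?_
      · intro r
        have h2 : (inc : SS →ₐ[RR] BB).toRingHom (C r) = C r := inc_C r
        rw [RingHom.comp_apply, h2, hΨ'C, hΦC, hφC]
      · intro i
        rw [RingHom.comp_apply]
        have h4 : ∀ g, (inc : SS →ₐ[RR] BB).toRingHom g = inc g := fun g => rfl
        rw [h4]
        fin_cases i
        · simp only [Fin.zero_eta]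
          rw [inc_X0, hΨ'0, hxx, map_add, map_mul, hΦC, hΦC, hφ0, hφC, hΦX]
          ring
        · simp only [Fin.mk_one]
          rw [inc_X1, hΨ'1, hyy, map_add, map_mul, hΦC, hΦC, hφ1, hφC, hΦX]
          ring
    exact RingHom.congr_fun h1 f
  have hΦΨ : ∀ f, Φ (Ψ f) = f := by
    intro f
    have h1 : Φ.comp Ψ = RingHom.id _ := by
      refine MvPolynomial.ringHom_ext ?_ ?_
      · intro r
        rw [RingHom.comp_apply, hΨC, hΦC, hφC]
        rfl
      · intro i
        rw [RingHom.comp_apply]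
        fin_cases i
        · simp only [Fin.zero_eta]
          rw [hΨ0, ← hΨ'0, hΦΨ', inc_X0]
          rfl
        · simp only [Fin.mk_one]
          rw [hΨ1, ← hΨ'1, hΦΨ', inc_X1]
          rfl
        · simp only [Fin.reduceFinMk]
          rw [hΨ2, map_add, map_mul, hΦC, hφC, hΦX, hΦΨ', hz', ← mul_assoc, mul_comm (C (C c)),
            hcc, one_mul, sub_add_cancel]
          rfl
    exact RingHom.congr_fun h1 f
  have hDΦ : ∀ g, D (Φ g) = Φ (Polynomial.derivative g) := by
    intro g
    induction g using Polynomial.induction_on' with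
    | add f g hf hg => rw [map_add, map_add, map_add, map_add, hf, hg]
    | monomial n f =>
      rw [← Polynomial.C_mul_X_pow_eq_monomial, map_mul, map_pow, hΦC, hΦX, Derivation.leibniz,
        hDφ, smul_zero, add_zero, Derivation.leibniz_pow, hDz', Polynomial.derivative_C_mul,
        Polynomial.derivative_X_pow, map_mul, hΦC, map_mul, map_pow, hΦX, map_natCast,
        map_natCast]
      simp only [smul_eq_mul, nsmul_eq_mul, mul_one]
  refine ⟨φ, hinj, fun f => ⟨fun hf => ?_, ?_⟩⟩
  · have h1 : Φ (Polynomial.derivative (Ψ f)) = 0 := by rw [← hDΦ, hΦΨ, hf]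
    have h2 : Polynomial.derivative (Ψ f) = 0 := by
      have := congrArg Ψ h1
      rwa [hΨΦ, map_zero] at this
    have h3 := Polynomial.derivative_eq_zero.1 h2
    have h4 := Polynomial.eq_C_of_natDegree_eq_zero h3
    refine ⟨(Ψ f).coeff 0, ?_⟩
    have h5 : φ ((Ψ f).coeff 0) = f := by
      rw [← hΦC, ← h4, hΦΨ]
    exact h5
  · rintro ⟨g, rfl⟩
    exact hDφ g

end Pool.Agent.H41.TS
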