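import Mathlib
import Pool.Agent.H41.TS.Orb

/-!
# Sequences of orbits
-/

set_option autoImplicit false
set_option linter.unusedSectionVars false

open MvPolynomial LaurentPolynomial

namespace Pool.Agent.H41.TS

/-- bounded sequences -/
def bdd : Subalgebra ℂ (ℕ → ℂ) where
  carrier := {f | ∃ c : ℝ, ∀ n, ‖f n‖ ≤ c}
  mul_mem' := by
    rintro f g ⟨c, hc⟩ ⟨d, hd⟩
    refine ⟨c * d, fun n => ?_⟩
    rw [Pi.mul_apply, norm_mul]
    exact mul_le_mul (hc n) (hd n) (norm_nonneg _) ((norm_nonneg _).trans (hc n))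
  add_mem' := by
    rintro f g ⟨c, hc⟩ ⟨d, hd⟩
    exact ⟨c + d, fun n => (norm_add_le _ _).trans (add_le_add (hc n) (hd n))⟩
  algebraMap_mem' := fun r => ⟨‖r‖, fun n => le_of_eq rfl⟩

theorem mem_bdd {f : ℕ → ℂ} : f ∈ bdd ↔ ∃ c : ℝ, ∀ n, ‖f n‖ ≤ c := Iff.rfl

/-- Laurent polynomials without negative powers -/
noncomputable def UU : Subalgebra ℂ ((ℕ → ℂ)[T;T⁻¹]) where
  carrier := {f | ∀ k < 0, f.coeff k = 0}
  mul_mem' := by
    intro f g hf hg k hk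
    rw [AddMonoidAlgebra.coeff_mul, Finsupp.sum]
    refine Finset.sum_eq_zero fun i _ => ?_
    rw [Finsupp.sum]
    refine Finset.sum_eq_zero fun j _ => ?_
    split_ifs with h
    · rcases lt_or_ge i 0 with hi | hi
      · rw [hf i hi, zero_mul]
      · rw [hg j (by omega), mul_zero]
    · rfl
  add_mem' := by
    intro f g hf hg k hk
    rw [AddMonoidAlgebra.coeff_add, Finsupp.add_apply, hf k hk, hg k hk, add_zero]
  algebraMap_mem' := by
    intro r k hk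
    rw [LaurentPolynomial.algebraMap_apply, LaurentPolynomial.C_apply, if_neg (by omega)]

/-- Laurent polynomials with bounded coefficients -/
noncomputable def VB : Subalgebra ℂ ((ℕ → ℂ)[T;T⁻¹]) where
  carrier := {f | ∀ k, f.coeff k ∈ bdd}
  mul_mem' := by
    intro f g hf hg k
    rw [AddMonoidAlgebra.coeff_mul, Finsupp.sum]
    refine sum_mem fun i _ => ?_
    rw [Finsupp.sum]
    refine sum_mem fun j _ => ?_
    split_ifs with h
    · exact mul_mem (hf i) (hg j)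
    · exact zero_mem _
  add_mem' := by
    intro f g hf hg k
    rw [AddMonoidAlgebra.coeff_add, Finsupp.add_apply]
    exact add_mem (hf k) (hg k)
  algebraMap_mem' := by
    intro r k
    rw [LaurentPolynomial.algebraMap_apply, LaurentPolynomial.C_apply]
    split_ifs
    · exact bdd.algebraMap_mem r
    · exact zero_mem _

theorem C_mem_UU (f : ℕ → ℂ) : (LaurentPolynomial.C f : (ℕ → ℂ)[T;T⁻¹]) ∈ UU := by
  intro k hk
  rw [LaurentPolynomial.C_apply, if_neg (by omega)]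

theorem C_mem_VB {f : ℕ → ℂ} (hf : f ∈ bdd) : (LaurentPolynomial.C f : (ℕ → ℂ)[T;T⁻¹]) ∈ VB := by
  intro k
  rw [LaurentPolynomial.C_apply]
  split_ifs
  · exact hf
  · exact zero_mem _

theorem T_mem_UU : (T 1 : (ℕ → ℂ)[T;T⁻¹]) ∈ UU := by
  intro k hk
  rw [LaurentPolynomial.T_apply, if_neg (by omega)]

theorem T_mem_VB (n : ℤ) : (T n : (ℕ → ℂ)[T;T⁻¹]) ∈ VB := by
  intro k
  rw [LaurentPolynomial.T_apply]
  split_ifs
  · exact one_mem _
  · exact zero_mem _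

theorem seq_main {p q : RR} (hpq : Algebra.adjoin ℂ {p, q} = ⊤) {D : Derivation RR BB BB}
    (hx : D (X 0) = MvPolynomial.C p) (hy : D (X 1) = MvPolynomial.C q)
    {ρ : MvPolynomial (Fin 3) ℂ} {w : SS}
    (hz : D (X 2) = inc (nf p q ρ) + D (inc w)) {s : BB} (hs : D s = 1)
    (ℓ h : ℕ → ℂ) (hh : ∀ n, h n ≠ 0) (hℓ : ∃ c : ℝ, ∀ n, ‖ℓ n‖ ≤ c)
    (hβ : ∃ c : ℝ, ∀ n, ‖ℓ n / h n‖ ≤ c) (μ : ℂ)
    (hmem : ∀ d ∈ ρ.support, ∃ c : ℝ, ∀ n, ‖ℓ n ^ d 0 * h n ^ (d 1 + d 2)‖ ≤ c)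
    (hG : ∀ n, ∑ d ∈ ρ.support, (ρ.coeff d * (μ ^ d 2 / ((d 1 : ℂ) + d 2 + 1))) *
      (ℓ n ^ d 0 * h n ^ (d 1 + d 2)) = 0) :
    ∃ c : ℝ, ∀ n, ‖h n‖ ≤ c := by
  set β : ℕ → ℂ := fun n => ℓ n / h n with hβdef
  have hβh : β * h = ℓ := by
    funext n
    rw [Pi.mul_apply, hβdef]
    exact div_mul_cancel₀ _ (hh n)
  have hT : (T 1 : (ℕ → ℂ)[T;T⁻¹]) * T (-1) = 1 := by
    rw [← T_add]
    simp
  obtain ⟨u, hu, v, hv, huv⟩ := orbit_main (A := (ℕ → ℂ)[T;T⁻¹]) hpq hx hy hz hs UU VB hT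
    (LaurentPolynomial.C β) (LaurentPolynomial.C h) μ T_mem_UU (C_mem_UU β) (C_mem_UU h)
    (T_mem_VB 1) (T_mem_VB (-1)) (C_mem_VB hβ)
    (by rw [← map_mul, hβh]; exact C_mem_VB hℓ)
    (by
      intro d hd
      rw [← map_mul, hβh, ← map_pow, ← map_pow, ← map_mul]
      exact C_mem_VB (hmem d hd))
    (by
      rw [← map_mul, hβh]
      have e : ∀ d : Fin 3 →₀ ℕ, algebraMap ℂ ((ℕ → ℂ)[T;T⁻¹])
          (ρ.coeff d * (μ ^ d 2 / ((d 1 : ℂ) + d 2 + 1))) *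
          (LaurentPolynomial.C ℓ ^ d 0 * LaurentPolynomial.C h ^ (d 1 + d 2)) =
          LaurentPolynomial.C (fun n => (ρ.coeff d * (μ ^ d 2 / ((d 1 : ℂ) + d 2 + 1))) *
            (ℓ n ^ d 0 * h n ^ (d 1 + d 2))) := by
        intro d
        rw [LaurentPolynomial.algebraMap_apply, ← map_pow, ← map_pow, ← map_mul, ← map_mul]
        rfl
      rw [Finset.sum_congr rfl fun d _ => e d, ← map_sum]
      have e2 : ∑ d ∈ ρ.support, (fun n => (ρ.coeff d * (μ ^ d 2 / ((d 1 : ℂ) + d 2 + 1))) *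
          (ℓ n ^ d 0 * h n ^ (d 1 + d 2))) = (0 : ℕ → ℂ) := by
        funext n
        rw [Finset.sum_apply]
        exact hG n
      rw [e2, map_zero])
  have h1 := congrArg (fun f : (ℕ → ℂ)[T;T⁻¹] => f.coeff (-1)) huv
  simp only [AddMonoidAlgebra.coeff_add, Finsupp.add_apply] at h1
  rw [hu (-1) (by omega), zero_add] at h1
  have h2 : ((T (-1) : (ℕ → ℂ)[T;T⁻¹]) * LaurentPolynomial.C h).coeff (-1) = h := by
    rw [mul_comm, ← LaurentPolynomial.single_eq_C_mul_T, AddMonoidAlgebra.coeff_single,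
      Finsupp.single_eq_same]
  rw [h2] at h1
  rw [h1]
  exact hv (-1)

end Pool.Agent.H41.TS
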