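import Mathlib
import Pool.Agent.H41.TS.Bdd
import Pool.Agent.H41.TS.Seq
import Pool.Agent.H41.TS.Fib
import Pool.Agent.H41.TS.Ker

/-!
# Main theorem
-/

set_option autoImplicit false

open MvPolynomial

namespace Pool.Agent.H41.TS

/-- `D x = p`, `D y = q`, `D z = r(x, y)` with a slice: `D z ∈ ℂ* + D(R[x,y])`. -/
theorem main0 {p q : RR} (hpq : Algebra.adjoin ℂ {p, q} = ⊤) {D : Derivation RR BB BB}
    (hx : D (X 0) = C p) (hy : D (X 1) = C q) (r : SS) (hz : D (X 2) = inc r)
    {s : BB} (hs : D s = 1) :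
    ∃ c : ℂ, c ≠ 0 ∧ ∃ w : SS, D (X 2) = C (C c) + D (inc w) := by
  obtain ⟨ρ, w, rfl⟩ := normal_form hpq r
  rw [map_add, inc_D0 hx hy] at hz
  obtain ⟨h0, h1⟩ := origin_fiber hpq hx hy hz hs
  by_cases h2 : ∃ d ∈ ρ.support, d ≠ 0
  · obtain ⟨μ, ℓ, h, hh, hℓ, hβ, hmem, hG, hno⟩ := exists_seq ρ h0 h1 h2
    exact absurd (seq_main hpq hx hy hz hs ℓ h hh hℓ hβ μ hmem hG) hno
  · push Not at h2
    refine ⟨ρ.coeff 0, h0, w, ?_⟩
    have h3 : ρ = C (ρ.coeff 0) := by
      ext d
      rw [coeff_C]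
      by_cases hd : d = 0
      · rw [hd, if_pos rfl]
      · rw [if_neg (Ne.symm hd)]
        by_contra hne
        exact hd (h2 d (mem_support_iff.2 hne))
    have h4 : inc (nf p q ρ) = C (C (ρ.coeff 0)) := by
      rw [h3]
      have h5 : nf p q (C (coeff 0 ρ)) = C (C (coeff 0 ρ)) := (nf p q).commutes _
      rw [h5, inc_C, coeff_zero_C]
    rw [hz, h4]

/-- antiderivatives -/
theorem exists_antideriv (u : Polynomial RR) : ∃ U : Polynomial RR, Polynomial.derivative U = u := by
  induction u using Polynomial.induction_on' with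
  | add f g hf hg =>
    obtain ⟨F, rfl⟩ := hf
    obtain ⟨G, rfl⟩ := hg
    exact ⟨F + G, Polynomial.derivative_add⟩
  | monomial n a =>
    refine ⟨Polynomial.monomial (n + 1) (a * C (1 / ((n : ℂ) + 1))), ?_⟩
    rw [Polynomial.derivative_monomial, Nat.add_sub_cancel, mul_assoc]
    congr 1
    have : (C (1 / ((n : ℂ) + 1)) * ((n + 1 : ℕ) : RR)) = 1 := by
      have h1 : ((n + 1 : ℕ) : RR) = C ((n : ℂ) + 1) := by
        push_cast
        rw [C_add, C_1, map_natCast]
      rw [h1, ← C_mul, one_div_mul_cancel (Nat.cast_add_one_ne_zero n), C_1]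
    rw [this, mul_one]

/-- the automorphism `y ↦ y + U(x)` -/
noncomputable def sh (U : Polynomial RR) : BB →ₐ[RR] BB :=
  aeval ![X 0, X 1 + Polynomial.aeval (X 0) U, X 2]

theorem sh_X0 (U : Polynomial RR) : sh U (X 0) = X 0 := by rw [sh, aeval_X]; rfl
theorem sh_X1 (U : Polynomial RR) : sh U (X 1) = X 1 + Polynomial.aeval (X 0) U := by
  rw [sh, aeval_X]; rfl
theorem sh_X2 (U : Polynomial RR) : sh U (X 2) = X 2 := by rw [sh, aeval_X]; rfl

theorem sh_pol (U V : Polynomial RR) :
    sh U (Polynomial.aeval (X 0) V) = Polynomial.aeval (X 0) V := by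
  rw [← Polynomial.aeval_algHom_apply, sh_X0]

theorem sh_sh (U V : Polynomial RR) (h : U + V = 0) (f : BB) : sh U (sh V f) = f := by
  have h1 : (sh U).comp (sh V) = AlgHom.id RR BB := by
    apply MvPolynomial.algHom_ext
    intro i
    rw [AlgHom.comp_apply, AlgHom.id_apply]
    fin_cases i
    · simp only [Fin.zero_eta]
      rw [sh_X0, sh_X0]
    · simp only [Fin.mk_one]
      rw [sh_X1, map_add, sh_X1, sh_pol, add_assoc, ← map_add, h, map_zero, add_zero]
    · simp only [Fin.reduceFinMk]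
      rw [sh_X2, sh_X2]
  exact DFunLike.congr_fun h1 f

/-- the conjugated derivation -/
noncomputable def conj (U : Polynomial RR) (D : Derivation RR BB BB) : Derivation RR BB BB :=
  Derivation.mk' ((sh U).toLinearMap ∘ₗ (D : BB →ₗ[RR] BB) ∘ₗ (sh (-U)).toLinearMap) (by
    intro a b
    change sh U (D (sh (-U) (a * b))) = a • sh U (D (sh (-U) b)) + b • sh U (D (sh (-U) a))
    rw [map_mul, Derivation.leibniz, map_add, smul_eq_mul, smul_eq_mul, map_mul, map_mul,
      sh_sh U (-U) (add_neg_cancel U), sh_sh U (-U) (add_neg_cancel U), smul_eq_mul, smul_eq_mul])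

theorem conj_apply (U : Polynomial RR) (D : Derivation RR BB BB) (f : BB) :
    conj U D f = sh U (D (sh (-U) f)) := rfl

theorem adjoin_eq : Algebra.adjoin RR {(X 0 : BB), (X 1 : BB)} = (inc : SS →ₐ[RR] BB).range := by
  have h : ({(X 0 : BB), (X 1 : BB)} : Set BB) = Set.range ![(X 0 : BB), X 1] := by
    ext f
    simp [Matrix.range_cons, Set.mem_insert_iff, or_comm]
  rw [h, Algebra.adjoin_range_eq_range_aeval]
  rfl

theorem sh_inc (U : Polynomial RR) (f : SS) : ∃ g : SS, sh U (inc f) = inc g := by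
  have h : sh U (inc f) ∈ Algebra.adjoin RR {(X 0 : BB), (X 1 : BB)} := by
    have hX0 : (X 0 : BB) ∈ Algebra.adjoin RR {(X 0 : BB), (X 1 : BB)} :=
      Algebra.subset_adjoin (Set.mem_insert _ _)
    have hX1 : (X 1 : BB) ∈ Algebra.adjoin RR {(X 0 : BB), (X 1 : BB)} :=
      Algebra.subset_adjoin (Set.mem_insert_of_mem _ (Set.mem_singleton _))
    induction f using MvPolynomial.induction_on with
    | C r =>
      rw [inc_C]
      have : sh U (C r) = algebraMap RR BB r := (sh U).commutes r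
      rw [this]
      exact Subalgebra.algebraMap_mem _ r
    | add f g hf hg => rw [map_add, map_add]; exact add_mem hf hg
    | mul_X f i hf =>
      rw [map_mul, map_mul]
      refine mul_mem hf ?_
      fin_cases i
      · simp only [Fin.zero_eta]
        rw [inc_X0, sh_X0]
        exact hX0
      · simp only [Fin.mk_one]
        rw [inc_X1, sh_X1]
        refine add_mem hX1 ?_
        rw [Polynomial.aeval_eq_sum_range]
        exact sum_mem fun i _ => Subalgebra.smul_mem _ (pow_mem hX0 i) _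
  rw [adjoin_eq] at h
  obtain ⟨g, hg⟩ := h
  exact ⟨g, hg.symm⟩

theorem D_pol (D : Derivation RR BB BB) {p : RR} (hx : D (X 0) = C p) (U : Polynomial RR) :
    D (Polynomial.aeval (X 0) U) = Polynomial.aeval (X 0) (Polynomial.derivative U) * C p := by
  rw [Derivation.map_aeval, hx, smul_eq_mul]

theorem main {p q : RR} (hpq : Algebra.adjoin ℂ {p, q} = ⊤) {D : Derivation RR BB BB}
    (hx : D (X 0) = C p)
    (hy : ∃ u : Polynomial RR, D (X 1) = C q + C p * Polynomial.aeval (X 0) u)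
    (hz : D (X 2) ∈ Algebra.adjoin RR {(X 0 : BB), (X 1 : BB)}) (hs : ∃ s, D s = 1) :
    (∃ c : ℂ, c ≠ 0 ∧ ∃ w ∈ Algebra.adjoin RR {(X 0 : BB), (X 1 : BB)},
      D (X 2) = C (C c) + D w) ∧
    ∃ φ : SS →ₐ[RR] BB, Function.Injective φ ∧ ∀ f : BB, D f = 0 ↔ f ∈ φ.range := by
  obtain ⟨u, hy⟩ := hy
  obtain ⟨s, hs⟩ := hs
  obtain ⟨U, rfl⟩ := exists_antideriv u
  rw [adjoin_eq] at hz ⊢
  obtain ⟨r, hr⟩ := hz
  have hr' : D (X 2) = inc r := hr.symm
  set D' := conj U D with hD'
  have hx' : D' (X 0) = C p := by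
    rw [hD', conj_apply, sh_X0, hx]
    exact (sh U).commutes p
  have hy' : D' (X 1) = C q := by
    rw [hD', conj_apply, sh_X1, map_neg, map_add, map_neg, D_pol D hx, hy]
    have e : C q + C p * Polynomial.aeval (X 0) (Polynomial.derivative U) +
        -(Polynomial.aeval (X 0) (Polynomial.derivative U) * C p) = (C q : BB) := by ring
    rw [e]
    exact (sh U).commutes q
  obtain ⟨r', hr''⟩ := sh_inc U r
  have hz' : D' (X 2) = inc r' := by
    rw [hD', conj_apply, sh_X2, hr', hr'']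
  have hinv : ∀ f, sh (-U) (sh U f) = f := sh_sh (-U) U (neg_add_cancel U)
  have hinv' : ∀ f, sh U (sh (-U) f) = f := sh_sh U (-U) (add_neg_cancel U)
  have hs' : D' (sh U s) = 1 := by
    rw [hD', conj_apply, hinv, hs, map_one]
  obtain ⟨c, hc, w, hw⟩ := main0 hpq hx' hy' r' hz' hs'
  obtain ⟨φ, hφ, hker⟩ := ker_const hx' hy' hc hw
  constructor
  · obtain ⟨w', hw'⟩ := sh_inc (-U) w
    refine ⟨c, hc, inc w', ⟨w', rfl⟩, ?_⟩
    have h1 := congrArg (sh (-U)) hw
    have h2 : sh (-U) (C (C c)) = C (C c) := (sh (-U)).commutes _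
    rw [hD', conj_apply, conj_apply, sh_X2, hinv, map_add, hinv, h2, hw'] at h1
    exact h1
  · refine ⟨(sh (-U)).comp φ, ?_, fun f => ?_⟩
    · intro f g hfg
      rw [AlgHom.comp_apply, AlgHom.comp_apply] at hfg
      apply hφ
      rw [← hinv' (φ f), hfg, hinv']
    · have h3 : D f = 0 ↔ D' (sh U f) = 0 := by
        rw [hD', conj_apply, hinv]
        constructor
        · intro h; rw [h, map_zero]
        · intro h
          have := congrArg (sh (-U)) h
          rwa [hinv, map_zero] at this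
      rw [h3, hker]
      constructor
      · rintro ⟨g, hg⟩
        refine ⟨g, ?_⟩
        have hg' : φ g = sh U f := hg
        change sh (-U) (φ g) = f
        rw [hg', hinv]
      · rintro ⟨g, hg⟩
        refine ⟨g, ?_⟩
        have hg' : sh (-U) (φ g) = f := hg
        change φ g = sh U f
        rw [← hg', hinv']

end Pool.Agent.H41.TS
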