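import Mathlib

/-!
# Embedded lines `x ↦ (b x, R(x))` over a domain `K` with a prime element `b`

If `x` is a polynomial in `b x` and `R(x)` then `b^k` divides the coefficient of `x^k` in `R`
for all `k ≥ 2`.
-/

set_option autoImplicit false

open Polynomial

namespace Pool.Agent.H41.TS

variable {K : Type*} [CommRing K]

/-- `f(L) ↦ f(b x)` -/
noncomputable def sg (b : K) : K[X] →+* K[X] := compRingHom (C b * X)

theorem sg_coeff (b : K) (f : K[X]) (k : ℕ) : (sg b f).coeff k = f.coeff k * b ^ k :=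
  comp_C_mul_X_coeff

/-- `F(L, U) ↦ F(b x, R(x))` -/
noncomputable def ps (b : K) (R : K[X]) : K[X][X] →+* K[X] := eval₂RingHom (sg b) R

theorem ps_C (b : K) (R : K[X]) (f : K[X]) : ps b R (C f) = sg b f := eval₂_C _ _

theorem ps_X (b : K) (R : K[X]) : ps b R X = R := eval₂_X _ _

theorem sg_C (b : K) (f : K) : sg b (C f) = C f := C_comp

theorem sg_X (b : K) : sg b X = C b * X := X_comp

theorem exists_den (b : K) (R : K[X]) : ∃ (M : ℕ) (h : K[X]), C b ^ M * R = sg b h := by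
  induction R using Polynomial.induction_on' with
  | add p q hp hq =>
    obtain ⟨M, h, hM⟩ := hp
    obtain ⟨N, g, hN⟩ := hq
    refine ⟨M + N, C b ^ N * h + C b ^ M * g, ?_⟩
    rw [map_add, map_mul, map_mul, map_pow, map_pow, sg_C, ← hM, ← hN]
    ring
  | monomial k r =>
    refine ⟨k, monomial k r, ?_⟩
    ext1 j
    rw [sg_coeff, ← C_pow, coeff_C_mul, coeff_monomial]
    by_cases h : k = j
    · rw [if_pos h, h, mul_comm]
    · rw [if_neg h, mul_zero, zero_mul]

/-- pseudo-division by `β U - h` -/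
theorem pseudo {A : Type*} [CommRing A] (β h : A) (G : A[X]) :
    ∃ (N : ℕ) (c : A), (C β * X - C h) ∣ (C β ^ N * G - C c) := by
  induction G using Polynomial.induction_on' with
  | add p q hp hq =>
    obtain ⟨M, c, u, hM⟩ := hp
    obtain ⟨N, d, v, hN⟩ := hq
    refine ⟨M + N, β ^ N * c + β ^ M * d, C β ^ N * u + C β ^ M * v, ?_⟩
    have e : C β ^ (M + N) * (p + q) - C (β ^ N * c + β ^ M * d) =
        C β ^ N * (C β ^ M * p - C c) + C β ^ M * (C β ^ N * q - C d) := by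
      rw [C_add, C_mul, C_mul, C_pow, C_pow]
      ring
    rw [e, hM, hN]
    ring
  | monomial k r =>
    obtain ⟨u, hu⟩ := sub_dvd_pow_sub_pow (C β * X) (C h) k
    refine ⟨k, r * h ^ k, C r * u, ?_⟩
    have e : C β ^ k * monomial k r - C (r * h ^ k) = C r * ((C β * X) ^ k - (C h) ^ k) := by
      rw [← C_mul_X_pow_eq_monomial, C_mul, C_pow]
      ring
    rw [e, hu]
    ring

variable [IsDomain K]

theorem sg_inj {b : K} (hb : b ≠ 0) : Function.Injective (sg b) := by
  rw [injective_iff_map_eq_zero]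
  intro f hf
  ext1 k
  have h := congrArg (fun g => g.coeff k) hf
  simp only [sg_coeff, coeff_zero] at h
  rcases mul_eq_zero.1 h with h | h
  · rw [h, coeff_zero]
  · exact absurd h (pow_ne_zero _ hb)

theorem prime_b {b : K} (hb : Prime b) : Prime (C (C b) : K[X][X]) :=
  prime_C_iff.2 (prime_C_iff.2 hb)

theorem ker_ps {b : K} (hb : Prime b) (R h : K[X]) (M : ℕ) (hM : C b ^ M * R = sg b h)
    (hh : ¬ (C b : K[X]) ∣ h)
    (G : K[X][X]) (hG : ps b R G = 0) : (C (C b ^ M) * X - C h) ∣ G := by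
  obtain ⟨N, c, Q, hQ⟩ := pseudo (C b ^ M) h G
  have h0 : ps b R (C (C b ^ M) * X - C h) = 0 := by
    rw [map_sub, map_mul, ps_C, ps_X, ps_C, map_pow, sg_C, hM, sub_self]
  have h1 := congrArg (ps b R) hQ
  rw [map_mul, h0, zero_mul, map_sub, map_mul, hG, mul_zero, zero_sub, ps_C, neg_eq_zero] at h1
  have hc : c = 0 := sg_inj hb.ne_zero (h1.trans (map_zero (sg b)).symm)
  rw [hc, C_0, sub_zero] at hQ
  have hQ' : C (C b) ^ (M * N) * G = (C (C b ^ M) * X - C h) * Q := by
    rw [← hQ, pow_mul, C_pow]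
  have hnd : ¬ (C (C b) : K[X][X]) ∣ (C (C b ^ M) * X - C h) := by
    intro hd
    rw [C_dvd_iff_dvd_coeff] at hd
    have h2 := hd 0
    rw [coeff_sub, coeff_C_mul, coeff_X_zero, mul_zero, zero_sub, coeff_C_zero, dvd_neg] at h2
    exact hh h2
  have h3 : C (C b) ^ (M * N) ∣ Q :=
    (prime_b hb).pow_dvd_of_dvd_mul_left _ hnd (Dvd.intro _ hQ')
  obtain ⟨Q', rfl⟩ := h3
  refine ⟨Q', ?_⟩
  have h4 : (C (C b) : K[X][X]) ^ (M * N) ≠ 0 := pow_ne_zero _ (prime_b hb).ne_zero
  apply mul_left_cancel₀ h4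
  rw [hQ']
  ring

theorem alg {b : K} (hb : Prime b) {R : K[X]} (hR : R.coeff 0 = 0) {e : K[X][X]}
    (he : ps b R e = X) : ¬ b ∣ R.coeff 1 ∧ ∀ k, 2 ≤ k → b ^ k ∣ R.coeff k := by
  classical
  have hex : ∃ M : ℕ, ∃ h : K[X], C b ^ M * R = sg b h := exists_den b R
  obtain ⟨h, hM⟩ := Nat.find_spec hex
  have hmin : ∀ m < Nat.find hex, ¬ ∃ h : K[X], C b ^ m * R = sg b h :=
    fun m hm => Nat.find_min hex hm
  generalize Nat.find hex = M at hM hmin
  have hCX : (C b : K[X]) ≠ 0 := (prime_C_iff.2 hb).ne_zero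
  -- `M ≠ 0`
  have hM0 : M ≠ 0 := by
    rintro rfl
    rw [pow_zero, one_mul] at hM
    have h1 : ps b R e = sg b (e.eval h) := by
      rw [ps, coe_eval₂RingHom, hM, eval, hom_eval₂, RingHom.comp_id]
    rw [he] at h1
    have h2 := congrArg (fun g => g.coeff 1) h1
    simp only [sg_coeff, coeff_X_one, pow_one] at h2
    exact hb.not_unit (IsUnit.of_mul_eq_one _ (by rw [mul_comm]; exact h2.symm))
  have hbh : ¬ (C b : K[X]) ∣ h := by
    rintro ⟨h', rfl⟩
    apply hmin (M - 1) (by omega)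
    refine ⟨h', ?_⟩
    apply mul_left_cancel₀ hCX
    rw [map_mul, sg_C] at hM
    rw [← hM, ← mul_assoc, ← pow_succ', Nat.sub_add_cancel (by omega)]
  obtain ⟨Q, hQ⟩ := ker_ps hb R h M hM hbh (C X - C (C b) * e) (by
    rw [map_sub, map_mul, ps_C, ps_C, he, sg_X, sg_C, sub_self])
  -- reduction modulo `b`
  haveI : (Ideal.span {b}).IsPrime := (Ideal.span_singleton_prime hb.ne_zero).2 hb
  set q : K →+* K ⧸ Ideal.span {b} := Ideal.Quotient.mk (Ideal.span {b}) with hq
  have hq0 : ∀ x, q x = 0 ↔ b ∣ x := fun x => by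
    rw [hq, Ideal.Quotient.eq_zero_iff_mem, Ideal.mem_span_singleton]
  have h1 : (X : (K ⧸ Ideal.span {b})[X]) = h.map q * -((Q.coeff 0).map q) := by
    have h2 := congrArg (fun g => (Polynomial.map q (g.coeff 0))) hQ
    simp only [coeff_sub, coeff_C_zero, coeff_C_mul, mul_coeff_zero, coeff_X_zero, mul_zero,
      zero_sub, Polynomial.map_sub, Polynomial.map_mul, map_C, map_X, Polynomial.map_neg] at h2
    rw [(hq0 b).2 dvd_rfl, C_0, zero_mul, sub_zero] at h2
    rw [h2]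
    ring
  set h0 : (K ⧸ Ideal.span {b})[X] := h.map q with hh0
  have hdvd : h0 ∣ X := ⟨_, h1⟩
  have hne : h0 ≠ 0 := by
    intro h00
    rw [h00, zero_dvd_iff] at hdvd
    exact X_ne_zero hdvd
  have hdeg : h0.natDegree ≤ 1 := (natDegree_le_of_dvd hdvd X_ne_zero).trans natDegree_X_le
  have hcoef : ∀ k, h.coeff k * b ^ k = b ^ M * R.coeff k := by
    intro k
    rw [← sg_coeff, ← hM, ← C_pow, coeff_C_mul]
  have hc0 : h.coeff 0 = 0 := by
    have h2 := hcoef 0
    rwa [hR, mul_zero, pow_zero, mul_one] at h2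
  have he0 : ∀ k, h0.coeff k = q (h.coeff k) := fun k => by
    rw [hh0, coeff_map]
  have hc1 : ¬ b ∣ h.coeff 1 := by
    intro h2
    apply hne
    ext k
    rw [coeff_zero]
    rcases Nat.lt_or_ge 1 k with hk | hk
    · exact coeff_eq_zero_of_natDegree_lt (lt_of_le_of_lt hdeg hk)
    · interval_cases k
      · rw [he0, hc0, map_zero]
      · rw [he0, (hq0 _).2 h2]
  have hM1 : M = 1 := by
    by_contra hcon
    have h2 := hcoef 1
    have h3 : h.coeff 1 = b ^ (M - 1) * R.coeff 1 := by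
      apply mul_right_cancel₀ hb.ne_zero
      rw [pow_one] at h2
      rw [h2]
      obtain ⟨m, rfl⟩ : ∃ m, M = m + 1 := ⟨M - 1, by omega⟩
      rw [Nat.add_sub_cancel, pow_succ]
      ring
    apply hc1
    rw [h3]
    exact Dvd.dvd.mul_right (dvd_pow_self b (by omega)) _
  subst hM1
  refine ⟨?_, fun k hk => ?_⟩
  · have h2 := hcoef 1
    rw [pow_one, mul_comm] at h2
    have h3 := mul_left_cancel₀ hb.ne_zero h2
    rw [← h3]
    exact hc1
  · have h2 : b ∣ h.coeff k := by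
      rw [← hq0, ← he0]
      exact coeff_eq_zero_of_natDegree_lt (lt_of_le_of_lt hdeg (by omega))
    obtain ⟨g, hg⟩ := h2
    have h3 := hcoef k
    rw [hg, pow_one, mul_assoc] at h3
    exact ⟨g, by rw [← mul_left_cancel₀ hb.ne_zero h3]; ring⟩

end Pool.Agent.H41.TS
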